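import Pool.Agent.TH803.UC.JT
import Pool.Agent.TH803.TW.First

/-! The first twisted moment, unconditionally. -/

open Complex Filter Topology Set MeasureTheory
open scoped BigOperators ComplexConjugate

namespace TH803UC

open H370 H370.A2 H370.AS TH803TW

section zeros

variable {F : ℂ → ℂ} (hF : GoodL F)

lemma gauss_int4 (x : ℝ) : Integrable (fun t : ℝ => Real.exp (-(x - t) ^ 2 / 4)) ∧
    ∫ t : ℝ, Real.exp (-(x - t) ^ 2 / 4) = Real.sqrt (4 * Real.pi) := by
  have h0 : ∀ t : ℝ, Real.exp (-(x - t) ^ 2 / 4) = Real.exp (-(1 / 4) * (t - x) ^ 2) := by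
    intro t; congr 1; ring
  simp_rw [h0]
  constructor
  · exact (integrable_exp_neg_mul_sq (by norm_num : (0 : ℝ) < 1 / 4)).comp_sub_right x
  · rw [integral_sub_right_eq_self (fun t : ℝ => Real.exp (-(1 / 4) * t ^ 2)) x, integral_gaussian]
    congr 1
    ring

include hF in
lemma outer_L1 : ∃ C : ℝ, 0 < C ∧ ∀ T : ℝ, 10 ≤ T → 8 ≤ Real.log T → ∀ A B : ℝ, T + 1 ≤ A →
    B ≤ 2 * T - 1 →
    ∫ t in (Set.Icc (A + Real.log T) (B - Real.log T))ᶜ, Zg F A B t ≤ C * (Real.log T) ^ 2 := by
  obtain ⟨C, hC, hZ⟩ := Zg_le hF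
  obtain ⟨C2, hC2, hN⟩ := NN_crude hF
  set s4 : ℝ := Real.sqrt (4 * Real.pi) with hs4
  refine ⟨4 * C + C2 * s4, by positivity, fun T hT hL8 A B hA hB => ?_⟩
  have hTpos : 0 < T := by linarith
  set L := Real.log T with hL
  have hL0 : 0 ≤ L := by linarith
  have hU : 1 ≤ A := by linarith
  obtain ⟨hZint, -⟩ := Zg_int hF (b := B) hU
  set G : ℝ → ℝ := fun t => ∑ s ∈ Zf F A B, (mult F s : ℝ) * Real.exp (-(s.im - t) ^ 2 / 4) with hG
  have hGi : Integrable G := integrable_finsetSum _ fun s _ => (gauss_int4 _).1.const_mul _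
  have hGv : ∫ t, G t = NN F A B * s4 := by
    rw [hG]
    simp only
    rw [integral_finsetSum _ fun s _ => (gauss_int4 _).1.const_mul _, NN_eq hF hU]
    push_cast
    rw [Finset.sum_mul]
    refine Finset.sum_congr rfl fun s _ => ?_
    rw [integral_const_mul, (gauss_int4 _).2]
  have hG0 : ∀ t, 0 ≤ G t := fun t => Finset.sum_nonneg fun s _ => by positivity
  set g : ℝ → ℝ := fun t => (Set.Icc (A - L) (A + L)).indicator (fun _ => C * L) t +
    (Set.Icc (B - L) (B + L)).indicator (fun _ => C * L) t + Real.exp (-(2 * L)) * G t with hg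
  have i1 : ∀ a b : ℝ, Integrable ((Set.Icc a b).indicator (fun _ : ℝ => C * L)) := fun a b =>
    (integrable_indicator_iff measurableSet_Icc).2 (by
      exact integrableOn_const (by simp) )
  have hgi : Integrable g := ((i1 _ _).add (i1 _ _)).add (hGi.const_mul _)
  have hg0 : ∀ t, 0 ≤ g t := by
    intro t
    simp only [hg]
    have h1 : ∀ S : Set ℝ, 0 ≤ S.indicator (fun _ : ℝ => C * L) t := fun S =>
      Set.indicator_nonneg (fun _ _ => by positivity) t
    have := h1 (Set.Icc (A - L) (A + L))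
    have := h1 (Set.Icc (B - L) (B + L))
    have := mul_nonneg (Real.exp_pos (-(2 * L))).le (hG0 t)
    linarith
  have hpt : ∀ t ∈ (Set.Icc (A + L) (B - L))ᶜ, Zg F A B t ≤ g t := by
    intro t ht
    have hz : Zg F A B t ≤ C * L := hZ T (by linarith) A B (by linarith) (by linarith) t
    have h1 : ∀ S : Set ℝ, 0 ≤ S.indicator (fun _ : ℝ => C * L) t := fun S =>
      Set.indicator_nonneg (fun _ _ => by positivity) t
    have h4 := mul_nonneg (Real.exp_pos (-(2 * L))).le (hG0 t)
    simp only [hg]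
    by_cases hc1 : t ∈ Set.Icc (A - L) (A + L)
    · rw [Set.indicator_of_mem hc1]
      have := h1 (Set.Icc (B - L) (B + L))
      linarith
    by_cases hc2 : t ∈ Set.Icc (B - L) (B + L)
    · rw [Set.indicator_of_mem hc2]
      have := h1 (Set.Icc (A - L) (A + L))
      linarith
    have h5 : Zg F A B t ≤ Real.exp (-(2 * L)) * G t := by
      simp only [hG]
      unfold Zg
      rw [Finset.mul_sum]
      refine Finset.sum_le_sum fun s hs => ?_
      rw [mem_Zf hF hU] at hs
      have hs1 := hs.2.2.1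
      have hs2 := hs.2.2.2.1
      have h6 : L ≤ |s.im - t| := by
        rw [Set.mem_compl_iff, Set.mem_Icc, not_and_or, not_le, not_le] at ht
        rw [Set.mem_Icc, not_and_or, not_le, not_le] at hc1 hc2
        rcases hc1 with h | h
        · rw [le_abs]; left; linarith
        · rcases hc2 with h' | h'
          · exfalso
            rcases ht with h'' | h'' <;> linarith
          · rw [le_abs]; right; linarith
      have h7 : L ^ 2 ≤ (s.im - t) ^ 2 := by
        rw [← sq_abs (s.im - t)]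
        gcongr
      have h8 : Real.exp (-(s.im - t) ^ 2 / 2) ≤
          Real.exp (-(2 * L)) * Real.exp (-(s.im - t) ^ 2 / 4) := by
        rw [← Real.exp_add]
        apply Real.exp_le_exp.2
        nlinarith
      calc (mult F s : ℝ) * Real.exp (-(s.im - t) ^ 2 / 2) ≤
          (mult F s : ℝ) * (Real.exp (-(2 * L)) * Real.exp (-(s.im - t) ^ 2 / 4)) := by gcongr
        _ = _ := by ring
    have := h1 (Set.Icc (A - L) (A + L))
    have := h1 (Set.Icc (B - L) (B + L))
    linarith
  have hind : ∀ a : ℝ, ∫ t, (Set.Icc (a - L) (a + L)).indicator (fun _ : ℝ => C * L) t =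
      2 * L * (C * L) := by
    intro a
    rw [integral_indicator measurableSet_Icc, setIntegral_const, smul_eq_mul]
    congr 1
    rw [Measure.real, Real.volume_Icc, ENNReal.toReal_ofReal (by linarith)]
    ring
  calc ∫ t in (Set.Icc (A + L) (B - L))ᶜ, Zg F A B t ≤
      ∫ t in (Set.Icc (A + L) (B - L))ᶜ, g t :=
        setIntegral_mono_on hZint.integrableOn hgi.integrableOn measurableSet_Icc.compl hpt
    _ ≤ ∫ t, g t := setIntegral_le_integral hgi (Eventually.of_forall hg0)
    _ = 4 * C * L ^ 2 + Real.exp (-(2 * L)) * (NN F A B * s4) := by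
        have k1 : Integrable (fun t : ℝ => (Set.Icc (A - L) (A + L)).indicator (fun _ => C * L) t +
            (Set.Icc (B - L) (B + L)).indicator (fun _ => C * L) t) := (i1 _ _).add (i1 _ _)
        have k2 : ∫ t, g t = (∫ t : ℝ, ((Set.Icc (A - L) (A + L)).indicator (fun _ => C * L) t +
            (Set.Icc (B - L) (B + L)).indicator (fun _ => C * L) t)) +
            ∫ t, Real.exp (-(2 * L)) * G t := integral_add k1 (hGi.const_mul _)
        have k3 : (∫ t : ℝ, ((Set.Icc (A - L) (A + L)).indicator (fun _ => C * L) t +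
            (Set.Icc (B - L) (B + L)).indicator (fun _ => C * L) t)) =
            (∫ t : ℝ, (Set.Icc (A - L) (A + L)).indicator (fun _ => C * L) t) +
            ∫ t : ℝ, (Set.Icc (B - L) (B + L)).indicator (fun _ => C * L) t :=
          integral_add (i1 _ _) (i1 _ _)
        rw [k2, k3, hind, hind, integral_const_mul, hGv]
        ring
    _ ≤ (4 * C + C2 * s4) * L ^ 2 := by
        have h1 := hN T (by linarith) A B (by linarith) (by linarith)
        have h2 : Real.exp (-(2 * L)) * T ≤ 1 := by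
          have h3 : T = Real.exp L := (Real.exp_log hTpos).symm
          rw [h3, ← Real.exp_add]
          apply Real.exp_le_one_iff.2
          linarith
        have h4 : Real.exp (-(2 * L)) * (NN F A B * s4) ≤ C2 * s4 * L ^ 2 := by
          calc Real.exp (-(2 * L)) * (NN F A B * s4) ≤
              Real.exp (-(2 * L)) * ((C2 * (T * L)) * s4) := by gcongr
            _ = (Real.exp (-(2 * L)) * T) * (C2 * s4 * L) := by ring
            _ ≤ 1 * (C2 * s4 * L) := by gcongr
            _ = C2 * s4 * L := one_mul _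
            _ ≤ C2 * s4 * L ^ 2 := by
              gcongr
              nlinarith
        linarith

include hF in
theorem first_momentU {a : ℕ → ℂ}
    (ha : ∀ n, ‖a n‖ ≤ ArithmeticFunction.vonMangoldt n)
    (hld : ∀ s : ℂ, 1 < s.re → 1 ≤ s.im → deriv F s / F s = - ∑' n : ℕ, a n * (n : ℂ) ^ (-s))
    {τ : ℝ} (hτ : τ ≠ 0) :
    ∃ K T0 : ℝ, 0 < K ∧ 10 ≤ T0 ∧ ∀ T : ℝ, T0 ≤ T → ∀ A B : ℝ, T + 1 ≤ A → B ≤ 2 * T - 1 →
      (1 + Real.log T) ^ 2 ≤ B - A → ‖E1 F A B τ‖ ≤ K * (B - A) := by
  obtain ⟨C, T1, hC, hT1, hEF⟩ := ef_sub2 hF ha hld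
  obtain ⟨C2, hC2, hL1⟩ := outer_L1 hF
  have hτ' : 0 < |τ| := abs_pos.2 hτ
  have hB0 := Bpp_nonneg 0
  set c0 : ℝ := 1 / Real.sqrt (2 * Real.pi) with hc0
  set sp : ℝ := Real.sqrt (2 * Real.pi) with hsp
  have hsp1 : 1 ≤ sp := by
    rw [hsp, Real.one_le_sqrt]; linarith [Real.pi_gt_three]
  have hsp0 : 0 < sp := by linarith
  have hsp2 : sp ^ 2 = 2 * Real.pi := Real.sq_sqrt (by positivity)
  have hc00 : 0 < c0 := by positivity
  have hc01 : c0 ≤ 1 := by rw [hc0, div_le_one hsp0]; exact hsp1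
  -- the constants
  set K : ℝ := (2 / |τ| + Bpp 0 + C) + 2 * C2 with hK
  have hK0 : 0 < K := by positivity
  have ev : ∀ᶠ T : ℝ in atTop, 8 ≤ Real.log T := Real.tendsto_log_atTop.eventually_ge_atTop _
  obtain ⟨T5, hT5⟩ := ev.exists_forall_of_atTop
  refine ⟨Real.exp (τ ^ 2 / 2) * K, max (max T1 T5) 10, by positivity, le_max_right _ _,
    fun T hT A B hA hB hAB => ?_⟩
  have hTT1 : T1 ≤ T := ((le_max_left _ _).trans (le_max_left _ _)).trans hT
  have hL8 := hT5 T (((le_max_right _ _).trans (le_max_left _ _)).trans hT)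
  have hT10 : 10 ≤ T := (le_max_right _ _).trans hT
  have hTpos : 0 < T := by linarith
  set L := Real.log T with hL
  have hL2 : 2 ≤ L := by
    rw [hL, Real.le_log_iff_exp_le hTpos]
    have h1 := Real.exp_one_lt_d9
    have h2 : Real.exp 2 = Real.exp 1 * Real.exp 1 := by rw [← Real.exp_add]; norm_num
    have h3 := Real.exp_pos 1
    nlinarith
  have hL0 : 0 ≤ L := by linarith
  set H := B - A with hH
  have hH9 : 9 ≤ H := by nlinarith
  have hU : 1 ≤ A := by linarith
  have hab : A + L ≤ B - L := by nlinarith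
  have hec : Continuous (fun t : ℝ => cexp (I * τ * t)) := by fun_prop
  have hAc := AA_cont hF (U2 := B) hU 0
  have hAint := AA_int hF (U2 := B) hU 0
  have hPc := PP_cont ha 0
  have hMc := MM_cont ha L 0
  obtain ⟨hZint, -⟩ := Zg_int hF (b := B) hU
  have hintC : Integrable (fun t : ℝ => AA F A B 0 t * cexp (I * τ * t)) := by
    refine hAint.mul_bdd (c := 1) hec.aestronglyMeasurable ?_
    exact Eventually.of_forall fun t => (tw_exp_norm τ t).le
  have hEF' : ∀ t ∈ Set.Icc (A + L) (B - L), ‖AA F A B 0 t - MM a L 0 t‖ ≤ C := fun t ht =>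
    hEF T hTT1 A B hA hB 0 t le_rfl hL0 ht.1 ht.2
  -- outer part
  have houter : ∫ t in (Set.Icc (A + L) (B - L))ᶜ, Zg F A B t ≤ C2 * H := by
    refine (hL1 T hT10 hL8 A B hA hB).trans ?_
    gcongr
    nlinarith
  have hsplit : ∫ t : ℝ, AA F A B 0 t * cexp (I * τ * t) =
      (∫ t in (A + L)..(B - L), AA F A B 0 t * cexp (I * τ * t)) +
      ∫ t in (Set.Icc (A + L) (B - L))ᶜ, AA F A B 0 t * cexp (I * τ * t) := by
    rw [← integral_add_compl measurableSet_Icc hintC, intervalIntegral.integral_of_le hab,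
      integral_Icc_eq_integral_Ioc]
  have hout : ‖∫ t in (Set.Icc (A + L) (B - L))ᶜ, AA F A B 0 t * cexp (I * τ * t)‖ ≤
      2 * (C2 * H) := by
    refine (norm_integral_le_integral_norm _).trans ?_
    calc ∫ t in (Set.Icc (A + L) (B - L))ᶜ, ‖AA F A B 0 t * cexp (I * τ * t)‖ ≤
        ∫ t in (Set.Icc (A + L) (B - L))ᶜ, 2 * Zg F A B t := by
          refine integral_mono hintC.norm.integrableOn (hZint.const_mul 2).integrableOn fun t => ?_
          simp only
          rw [norm_mul, tw_exp_norm, mul_one]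
          have := AA_le_Zg hF (U2 := B) hU 0 t le_rfl
          simpa using this
      _ = 2 * ∫ t in (Set.Icc (A + L) (B - L))ᶜ, Zg F A B t := integral_const_mul _ _
      _ ≤ 2 * (C2 * H) := by gcongr
  have hin : ‖∫ t in (A + L)..(B - L), AA F A B 0 t * cexp (I * τ * t)‖ ≤
      (2 / |τ| + Bpp 0 + C) * H := by
    have h1 : ∫ t in (A + L)..(B - L), AA F A B 0 t * cexp (I * τ * t) =
        (c0 : ℂ) * (L * ∫ t in (A + L)..(B - L), cexp (I * τ * t)) +
        ∫ t in (A + L)..(B - L), ((AA F A B 0 t - MM a L 0 t) - (c0 : ℂ) * PP a 0 t) *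
          cexp (I * τ * t) := by
      rw [← intervalIntegral.integral_const_mul, ← intervalIntegral.integral_const_mul,
        ← intervalIntegral.integral_add]
      · refine intervalIntegral.integral_congr fun t _ => ?_
        unfold MM
        rw [← hsp, ← hc0]
        have e1 : I * ((0 : ℝ) : ℂ) * (t : ℂ) = 0 := by push_cast; ring
        have e2 : Real.exp (-(0 : ℝ) ^ 2 / 2) = 1 := by norm_num
        rw [e1, e2, Complex.exp_zero]
        push_cast
        ring
      · exact (continuous_const.mul (continuous_const.mul hec)).intervalIntegrable _ _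
      · exact (((hAc.sub hMc).sub (continuous_const.mul hPc)).mul hec).intervalIntegrable _ _
    rw [h1]
    refine (norm_add_le _ _).trans ?_
    have h2 := (exp_int τ (A + L) (B - L) hab).2 hτ
    have hLH : L ≤ H := by nlinarith
    have h3 : ‖(c0 : ℂ) * (L * ∫ t in (A + L)..(B - L), cexp (I * τ * t))‖ ≤ 2 / |τ| * H := by
      rw [norm_mul, norm_mul, Complex.norm_real, Complex.norm_real, Real.norm_of_nonneg hc00.le,
        Real.norm_of_nonneg hL0]
      calc c0 * (L * ‖∫ t in (A + L)..(B - L), cexp (I * τ * t)‖) ≤ 1 * (H * (2 / |τ|)) := by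
            gcongr
        _ = _ := by ring
    have h4 : ‖∫ t in (A + L)..(B - L), ((AA F A B 0 t - MM a L 0 t) - (c0 : ℂ) * PP a 0 t) *
          cexp (I * τ * t)‖ ≤ (Bpp 0 + C) * H := by
      have h5 := intervalIntegral.norm_integral_le_of_norm_le_const (a := A + L) (b := B - L)
        (f := fun t : ℝ => ((AA F A B 0 t - MM a L 0 t) - (c0 : ℂ) * PP a 0 t) *
          cexp (I * τ * t)) (C := C + Bpp 0) (fun t ht => by
          rw [norm_mul, tw_exp_norm, mul_one]
          rw [Set.uIoc_of_le hab] at ht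
          refine (norm_sub_le _ _).trans (add_le_add (hEF' t ⟨ht.1.le, ht.2⟩) ?_)
          rw [norm_mul, Complex.norm_real, Real.norm_of_nonneg hc00.le]
          have h7 : ‖PP a 0 t‖ ≤ Bpp 0 := PP_bound ha 0 t
          calc c0 * ‖PP a 0 t‖ ≤ 1 * Bpp 0 := by gcongr
            _ = _ := one_mul _)
      rw [abs_of_nonneg (by linarith)] at h5
      refine h5.trans ?_
      rw [add_comm C]
      gcongr
      rw [hH]; linarith
    linarith
  have htot : ‖(Real.sqrt (2 * Real.pi) : ℂ) * cexp (-(τ : ℂ) ^ 2 / 2) * E1 F A B τ‖ ≤ K * H := by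
    rw [← E1_eq hF hU, hsplit]
    refine (norm_add_le _ _).trans ?_
    rw [hK]
    linarith
  rw [norm_mul, norm_mul, Complex.norm_real, Real.norm_of_nonneg (Real.sqrt_nonneg _), ← hsp] at htot
  have e3 : ‖cexp (-(τ : ℂ) ^ 2 / 2)‖ = Real.exp (-(τ ^ 2 / 2)) := by
    have : -(τ : ℂ) ^ 2 / 2 = ((-(τ ^ 2 / 2) : ℝ) : ℂ) := by push_cast; ring
    rw [this, Complex.norm_exp, Complex.ofReal_re]
  rw [e3] at htot
  have e4 : Real.exp (τ ^ 2 / 2) * Real.exp (-(τ ^ 2 / 2)) = 1 := by
    rw [← Real.exp_add, add_neg_cancel, Real.exp_zero]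
  have hn := norm_nonneg (E1 F A B τ)
  calc ‖E1 F A B τ‖ = Real.exp (τ ^ 2 / 2) * (1 * Real.exp (-(τ ^ 2 / 2)) * ‖E1 F A B τ‖) := by
        rw [one_mul, ← mul_assoc, e4, one_mul]
    _ ≤ Real.exp (τ ^ 2 / 2) * (sp * Real.exp (-(τ ^ 2 / 2)) * ‖E1 F A B τ‖) := by gcongr
    _ ≤ Real.exp (τ ^ 2 / 2) * (K * H) := by gcongr
    _ = _ := by ring

end zeros

end TH803UC
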