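import Pool.Agent.TH803.UC.Gp
import Pool.Agent.TH803.UC.First

/-! Consequences of a bound for exponential moments of the distances from the critical line. -/

open Complex Filter Topology Set MeasureTheory
open scoped BigOperators ComplexConjugate

namespace TH803UC

open H370 H370.A2 H295SI TH803TW

/-- bounded exponential moment of the distances from the critical line -/
def Dens (F : ℂ → ℂ) : Prop := ∃ κ C T0 : ℝ, 0 < κ ∧ 0 < C ∧ 10 ≤ T0 ∧ ∀ T : ℝ, T0 ≤ T →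
    ∑ s ∈ Zf F T (2 * T), (mult F s : ℝ) * Real.exp (κ * (|(zz s).im| * Real.log T)) ≤
      C * (T * Real.log T)

/-- the total distance from the critical line -/
noncomputable def DD (F : ℂ → ℂ) (A B : ℝ) : ℝ := ∑ s ∈ Zf F A B, (mult F s : ℝ) * |(zz s).im|

lemma DD_nonneg (F : ℂ → ℂ) (A B : ℝ) : 0 ≤ DD F A B := Finset.sum_nonneg fun s _ => by positivity

lemma zz_small {F : ℂ → ℂ} {A B : ℝ} {s : ℂ} (hs : s ∈ zset F A B) : |(zz s).im| ≤ 1 / 2 := by
  rw [zz_im, abs_neg, abs_le]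
  constructor <;> linarith [hs.1, hs.2.1]

lemma DD_le {F : ℂ → ℂ} (hF : GoodL F) (hD : Dens F) : ∃ C T0 : ℝ, 0 < C ∧ 10 ≤ T0 ∧
    ∀ T : ℝ, T0 ≤ T → ∀ A B : ℝ, T ≤ A → B ≤ 2 * T → DD F A B ≤ C * T := by
  obtain ⟨κ, C, T0, hκ, hC, hT0, h⟩ := hD
  refine ⟨C / κ, T0, by positivity, hT0, fun T hT A B hA hB => ?_⟩
  have hT10 : 10 ≤ T := hT0.trans hT
  have hL : 0 < Real.log T := Real.log_pos (by linarith)
  set L := Real.log T with hLd
  have h1 := h T hT
  have h2 : DD F A B ≤ DD F T (2 * T) := by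
    unfold DD
    exact Finset.sum_le_sum_of_subset_of_nonneg (Zf_sub hF (by linarith) hA hB)
      fun s _ _ => by positivity
  have h3 : κ * L * DD F T (2 * T) ≤ C * (T * L) := by
    refine le_trans ?_ h1
    unfold DD
    rw [Finset.mul_sum]
    refine Finset.sum_le_sum fun s _ => ?_
    have h4 := Real.add_one_le_exp (κ * (|(zz s).im| * L))
    have h5 : (0 : ℝ) ≤ mult F s := Nat.cast_nonneg _
    calc κ * L * ((mult F s : ℝ) * |(zz s).im|) = (mult F s : ℝ) * (κ * (|(zz s).im| * L)) := by ring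
      _ ≤ (mult F s : ℝ) * Real.exp (κ * (|(zz s).im| * L)) := by gcongr; linarith
  refine h2.trans ?_
  rw [div_mul_eq_mul_div, le_div_iff₀ hκ]
  have h6 : (κ * DD F T (2 * T)) * L ≤ (C * T) * L := by linarith
  have := le_of_mul_le_mul_right h6 hL
  linarith

open Classical in
lemma far_le {F : ℂ → ℂ} (hF : GoodL F) (hD : Dens F) : ∃ κ C T0 : ℝ, 0 < κ ∧ 0 < C ∧ 10 ≤ T0 ∧
    ∀ T : ℝ, T0 ≤ T → ∀ A B : ℝ, T ≤ A → B ≤ 2 * T → ∀ x : ℝ,
      ∑ s ∈ (Zf F A B).filter (fun s => x < |(zz s).im| * Real.log T), (mult F s : ℝ) ≤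
        C * Real.exp (-(κ * x)) * (T * Real.log T) := by
  obtain ⟨κ, C, T0, hκ, hC, hT0, h⟩ := hD
  refine ⟨κ, C, T0, hκ, hC, hT0, fun T hT A B hA hB x => ?_⟩
  have hT10 : 10 ≤ T := hT0.trans hT
  have h1 := h T hT
  have h2 : Real.exp (κ * x) *
      ∑ s ∈ (Zf F A B).filter (fun s => x < |(zz s).im| * Real.log T), (mult F s : ℝ) ≤
      C * (T * Real.log T) := by
    refine le_trans ?_ h1
    rw [Finset.mul_sum]
    calc ∑ s ∈ (Zf F A B).filter (fun s => x < |(zz s).im| * Real.log T),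
          Real.exp (κ * x) * (mult F s : ℝ) ≤
        ∑ s ∈ (Zf F A B).filter (fun s => x < |(zz s).im| * Real.log T),
          (mult F s : ℝ) * Real.exp (κ * (|(zz s).im| * Real.log T)) := by
          refine Finset.sum_le_sum fun s hs => ?_
          rw [Finset.mem_filter] at hs
          rw [mul_comm]
          gcongr
          exact hs.2.le
      _ ≤ _ := Finset.sum_le_sum_of_subset_of_nonneg
        ((Finset.filter_subset _ _).trans (Zf_sub hF (by linarith) hA hB))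
        fun s _ _ => by positivity
  have h3 : Real.exp (κ * x) * Real.exp (-(κ * x)) = 1 := by rw [← Real.exp_add]; simp
  have h4 := mul_le_mul_of_nonneg_left h2 (Real.exp_pos (-(κ * x))).le
  calc ∑ s ∈ (Zf F A B).filter (fun s => x < |(zz s).im| * Real.log T), (mult F s : ℝ) =
      (Real.exp (κ * x) * Real.exp (-(κ * x))) *
      ∑ s ∈ (Zf F A B).filter (fun s => x < |(zz s).im| * Real.log T), (mult F s : ℝ) := by
        rw [h3, one_mul]
    _ ≤ C * Real.exp (-(κ * x)) * (T * Real.log T) := by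
        refine le_trans (le_of_eq ?_) (h4.trans (le_of_eq ?_)) <;> ring

/-- weights evaluated at the ordinates -/
lemma MW_E1 {F : ℂ → ℂ} (hF : GoodL F) {A B : ℝ} (hA : 1 ≤ A) (S : Finset ℝ) (c : ℝ → ℂ) :
    |MW F A B (tp S c) - (∑ τ ∈ S, c τ * E1 F A B τ).re| ≤
      (∑ τ ∈ S, ‖c τ‖ * (|τ| * Real.exp |τ|)) * DD F A B := by
  have h1 : ∑ τ ∈ S, c τ * E1 F A B τ = ∑ s ∈ Zf F A B, ((mult F s : ℝ) : ℂ) *
      gp S c (fun τ => τ) (zz s) := by
    unfold E1 gp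
    simp_rw [Finset.mul_sum]
    rw [Finset.sum_comm]
    refine Finset.sum_congr rfl fun s _ => Finset.sum_congr rfl fun τ _ => ?_
    push_cast
    ring
  rw [h1, Complex.re_sum]
  unfold MW
  rw [← Finset.sum_sub_distrib]
  refine (Finset.abs_sum_le_sum_abs _ _).trans ?_
  unfold DD
  rw [Finset.mul_sum]
  refine Finset.sum_le_sum fun s hs => ?_
  rw [mem_Zf hF hA] at hs
  have h2 := gp_near S c (fun τ => τ) (z := zz s) (by have := zz_small hs; linarith)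
  rw [Complex.re_ofReal_mul, ← mul_sub, abs_mul, abs_of_nonneg (Nat.cast_nonneg _ : (0 : ℝ) ≤ mult F s)]
  have h3 : tp S c s.im = (gp S c (fun τ => τ) ((zz s).re : ℂ)).re := by
    unfold tp gp
    rw [zz_re]
  rw [h3, ← Complex.sub_re]
  have h4 : |(gp S c (fun τ => τ) ((zz s).re : ℂ) - gp S c (fun τ => τ) (zz s)).re| ≤
      gC S c (fun τ => τ) * |(zz s).im| := by
    refine (Complex.abs_re_le_norm _).trans ?_
    rw [norm_sub_rev]
    exact h2
  calc (mult F s : ℝ) * |(gp S c (fun τ => τ) ((zz s).re : ℂ) - gp S c (fun τ => τ) (zz s)).re| ≤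
      (mult F s : ℝ) * (gC S c (fun τ => τ) * |(zz s).im|) := by gcongr
    _ = _ := by unfold gC; ring

/-- **the first moment against almost periodic weights** -/
theorem firstW {F : ℂ → ℂ} (hF : GoodL F) (hD : Dens F) {a : ℕ → ℂ}
    (ha : ∀ n, ‖a n‖ ≤ ArithmeticFunction.vonMangoldt n)
    (hld : ∀ s : ℂ, 1 < s.re → 1 ≤ s.im → deriv F s / F s = - ∑' n : ℕ, a n * (n : ℂ) ^ (-s))
    {φ : ℝ → ℝ} {M : ℝ} (hφ : APm φ M) {η : ℝ} (hη : 0 < η) :
    ∃ T0 : ℝ, 10 ≤ T0 ∧ ∀ T : ℝ, T0 ≤ T → ∀ A B : ℝ, T + 1 ≤ A → B ≤ 2 * T - 1 →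
      T / 4 ≤ B - A →
      |MW F A B φ - M * NN F A B| ≤ η * (T * Real.log T) + η * NN F A B := by
  classical
  obtain ⟨S, c, h0, h1, h2⟩ := hφ (η / 2) (by positivity)
  have hex2 : ∀ τ ∈ S.erase 0, ∃ K T0 : ℝ, 0 < K ∧ ∀ T : ℝ, T0 ≤ T → ∀ A B : ℝ, T + 1 ≤ A →
      B ≤ 2 * T - 1 → (1 + Real.log T) ^ 2 ≤ B - A → ‖E1 F A B τ‖ ≤ K * (B - A) := by
    intro τ hτ
    obtain ⟨K, T0, hK, -, hT⟩ := first_momentU hF ha hld (Finset.ne_of_mem_erase hτ)
    exact ⟨K, T0, hK, hT⟩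
  choose! Kb Tb hKb hTb using hex2
  set CK : ℝ := ∑ τ ∈ S.erase 0, ‖c τ‖ * Kb τ with hCK
  have hCK0 : 0 ≤ CK := Finset.sum_nonneg fun τ hτ => mul_nonneg (norm_nonneg _) (hKb τ hτ).le
  obtain ⟨CD, TD, hCD, hTD, hDD⟩ := DD_le hF hD
  set CT : ℝ := ∑ τ ∈ S, ‖c τ‖ * (|τ| * Real.exp |τ|) with hCT
  have hCT0 : 0 ≤ CT := Finset.sum_nonneg fun τ _ => by positivity
  have ev1 := ev_log_pow 1 4 1 2 one_pos (by norm_num) one_pos
  have ev2 : ∀ᶠ T : ℝ in atTop, (CK + CT * CD) / η ≤ Real.log T :=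
    Real.tendsto_log_atTop.eventually_ge_atTop _
  obtain ⟨T2, hT2⟩ := (ev1.and ev2).exists_forall_of_atTop
  set Tm : ℝ := ∑ τ ∈ S.erase 0, |Tb τ| with hTm
  have hTm' : ∀ τ ∈ S.erase 0, Tb τ ≤ Tm := by
    intro τ hτ
    have h1 : |Tb τ| ≤ Tm := Finset.single_le_sum
      (f := fun τ => |Tb τ|) (fun τ _ => abs_nonneg _) hτ
    exact (le_abs_self _).trans h1
  refine ⟨max TD (max Tm T2), hTD.trans (le_max_left _ _), fun T hT A B hA hB hAB => ?_⟩
  have hTTD : TD ≤ T := (le_max_left _ _).trans hT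
  have hT10 : 10 ≤ T := hTD.trans hTTD
  have hTTm : Tm ≤ T := ((le_max_left _ _).trans (le_max_right _ _)).trans hT
  obtain ⟨e1, e2⟩ := hT2 T (((le_max_right _ _).trans (le_max_right _ _)).trans hT)
  have hTpos : 0 < T := by linarith
  set L := Real.log T with hL
  have hL0 : 0 ≤ L := Real.log_nonneg (by linarith)
  have hU : 1 ≤ A := by linarith
  rw [Real.rpow_one, one_mul] at e1
  have hBA : B - A ≤ T := by linarith
  have d0 := MW_E1 hF (B := B) hU S c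
  have d1 := split_zero h0 c (E1 F A B) _ (E1_zero hF hU)
  have d2 : ∑ τ ∈ S.erase 0, ‖c τ‖ * ‖E1 F A B τ‖ ≤ CK * T := by
    rw [hCK, Finset.sum_mul]
    refine Finset.sum_le_sum fun τ hτ => ?_
    have h3 := hTb τ hτ T ((hTm' τ hτ).trans hTTm) A B hA hB (by linarith)
    have h4 : Kb τ * (B - A) ≤ Kb τ * T := mul_le_mul_of_nonneg_left hBA (hKb τ hτ).le
    rw [mul_assoc]
    exact mul_le_mul_of_nonneg_left (h3.trans h4) (norm_nonneg _)
  have d3 : CT * DD F A B ≤ CT * (CD * T) :=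
    mul_le_mul_of_nonneg_left (hDD T hTTD A B (by linarith) (by linarith)) hCT0
  have d4 : CK * T + CT * (CD * T) ≤ η * (T * L) := by
    rw [div_le_iff₀ hη] at e2
    calc CK * T + CT * (CD * T) = (CK + CT * CD) * T := by ring
      _ ≤ (L * η) * T := by gcongr
      _ = _ := by ring
  have d5 := MW_diff (F := F) (A := A) (B := B) h1
  rw [MW_one hF hU] at d5
  have hN : (0 : ℝ) ≤ NN F A B := Nat.cast_nonneg _
  have d6 : |(c 0).re * NN F A B - M * NN F A B| ≤ η / 2 * NN F A B := by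
    rw [← sub_mul, abs_mul, abs_of_nonneg hN]
    gcongr
  have e : MW F A B φ - M * NN F A B = (MW F A B φ - MW F A B (tp S c)) +
    (MW F A B (tp S c) - (∑ τ ∈ S, c τ * E1 F A B τ).re) +
    ((∑ τ ∈ S, c τ * E1 F A B τ).re - (c 0).re * NN F A B) +
    ((c 0).re * NN F A B - M * NN F A B) := by ring
  rw [e]
  refine (abs_add_le _ _).trans ?_
  have k1 := (abs_add_le ((MW F A B φ - MW F A B (tp S c)) +
    (MW F A B (tp S c) - (∑ τ ∈ S, c τ * E1 F A B τ).re))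
    ((∑ τ ∈ S, c τ * E1 F A B τ).re - (c 0).re * NN F A B))
  have k2 := (abs_add_le (MW F A B φ - MW F A B (tp S c))
    (MW F A B (tp S c) - (∑ τ ∈ S, c τ * E1 F A B τ).re))
  linarith

end TH803UC
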