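import Pool.Agent.TH803.UC.Count
import Pool.Agent.TH803.UC.Dens

/-! The counting inequality for the zeros. -/

open Complex Filter Topology Set MeasureTheory
open scoped BigOperators ComplexConjugate

namespace TH803UC

open H370 H370.A2 H295SI TH803TW

open Classical in
/-- simple critical zeros with `p > 0` -/
noncomputable def X1 (F : ℂ → ℂ) (A B : ℝ) (p : ℝ → ℝ) : ℕ :=
  ((Zf F A B).filter (fun s => s.re = 1 / 2 ∧ mult F s = 1 ∧ 0 < p s.im)).card

open Classical in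
/-- distinct zeros in the left half of the strip with `p > 0` -/
noncomputable def X2 (F : ℂ → ℂ) (A B : ℝ) (p : ℝ → ℝ) : ℕ :=
  ((Zf F A B).filter (fun s => s.re ≤ 1 / 2 ∧ 0 < p s.im)).card

open Classical in
/-- zeros far from the critical line -/
noncomputable def FAR (F : ℂ → ℂ) (A B L x : ℝ) : ℝ :=
  ∑ s ∈ (Zf F A B).filter (fun s => x < |(zz s).im| * L), (mult F s : ℝ)

/-- the weighted pair sum -/
noncomputable def QW (F : ℂ → ℂ) (g : ℝ → ℝ) (Λ A B : ℝ) (S : Finset ℝ) (c : ℝ → ℂ) : ℝ :=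
  (∑ s ∈ Zf F A B, ∑ s' ∈ Zf F A B, (mult F s : ℂ) * (mult F s' : ℂ) *
      (om S c (zz s) ^ 2 * om S c (zz s') ^ 2 * (phiG g Λ (zz s - zz s')) ^ 2)).re

lemma phi_near {g : ℝ → ℝ} (hg : Win g) {Λ L x : ℝ} (hΛ : 0 ≤ Λ) (hΛL : Λ ≤ L) {z : ℂ}
    (hz : |z.im| ≤ 1 / 2) (hx : |z.im| * L ≤ x) :
    ‖phiG g Λ (z - conj z)‖ ≤ 2 * Real.exp x := by
  have e0 : z - conj z = ((2 * z.im : ℝ) : ℂ) * I := by
    apply Complex.ext
    · simp
    · simp; ring
  have h0 := abs_nonneg z.im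
  have hL0 : 0 ≤ L := hΛ.trans hΛL
  have hgc := hg.cont
  have h1 : ‖kapG g (Λ * (z - conj z))‖ ≤ Real.exp x := by
    unfold kapG
    refine (intervalIntegral.norm_integral_le_integral_norm (by norm_num)).trans ?_
    have h2 : ∫ y in (-1 / 2 : ℝ)..(1 / 2), ‖(g y : ℂ) * cexp (I * (Λ * (z - conj z)) * y)‖ ≤
        ∫ y in (-1 / 2 : ℝ)..(1 / 2), g y * Real.exp x := by
      refine intervalIntegral.integral_mono_on (by norm_num) ?_ ?_ fun y hy => ?_
      · exact (by fun_prop : Continuous fun y : ℝ =>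
          ‖(g y : ℂ) * cexp (I * (Λ * (z - conj z)) * y)‖).intervalIntegrable _ _
      · exact (hgc.mul continuous_const).intervalIntegrable _ _
      · have hg0 := hg.nonneg y (by linarith [hy.1]) hy.2
        rw [norm_mul, Complex.norm_real, Real.norm_of_nonneg hg0]
        apply mul_le_mul_of_nonneg_left _ hg0
        have e1 : I * (Λ * (z - conj z)) * y = ((-(2 * Λ * z.im * y) : ℝ) : ℂ) := by
          rw [e0]
          have hI : I ^ 2 = -1 := I_sq
          push_cast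
          linear_combination (2 * (Λ : ℂ) * (z.im : ℂ) * y) * hI
        rw [e1, ← Complex.ofReal_exp, Complex.norm_real, Real.norm_of_nonneg (Real.exp_pos _).le]
        apply Real.exp_le_exp.2
        have hy2 : |y| ≤ 1 / 2 := by rw [abs_le]; constructor <;> linarith [hy.1, hy.2]
        calc -(2 * Λ * z.im * y) ≤ |2 * Λ * z.im * y| := neg_le_abs _
          _ = 2 * Λ * |z.im| * |y| := by
            rw [abs_mul, abs_mul, abs_of_nonneg (by positivity : 0 ≤ 2 * Λ)]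
          _ ≤ 2 * L * |z.im| * (1 / 2) := by gcongr
          _ = |z.im| * L := by ring
          _ ≤ x := hx
    refine h2.trans ?_
    rw [intervalIntegral.integral_mul_const, hg.mass, one_mul]
  have h3 : ‖cexp (-(z - conj z) ^ 2 / 8)‖ ≤ 2 := by
    have e1 : -(z - conj z) ^ 2 / 8 = ((z.im ^ 2 / 2 : ℝ) : ℂ) := by
      rw [e0]
      have hI : I ^ 2 = -1 := I_sq
      push_cast
      linear_combination (-(4 * (z.im : ℂ) ^ 2) / 8) * hI
    rw [e1, ← Complex.ofReal_exp, Complex.norm_real, Real.norm_of_nonneg (Real.exp_pos _).le]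
    have h4 : z.im ^ 2 ≤ 1 / 4 := by
      rw [← sq_abs]; nlinarith
    calc Real.exp (z.im ^ 2 / 2) ≤ Real.exp (1 / 2) := Real.exp_le_exp.2 (by linarith)
      _ ≤ 2 := by
        have := Real.exp_one_lt_d9
        have h5 : Real.exp (1 / 2) ^ 2 = Real.exp 1 := by
          rw [← Real.exp_nat_mul]; norm_num
        nlinarith [Real.exp_pos (1 / 2 : ℝ)]
  unfold phiG
  rw [norm_mul]
  calc ‖kapG g (Λ * (z - conj z))‖ * ‖cexp (-(z - conj z) ^ 2 / 8)‖ ≤ Real.exp x * 2 := by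
        gcongr
    _ = _ := by ring

open Classical in
/-- **the counting inequality for the zeros** -/
theorem core_ineq {F : ℂ → ℂ} (hF : GoodL F) {A B : ℝ} (hU : 1 ≤ A) {g : ℝ → ℝ} (hg : Win g)
    {Λ L x : ℝ} (hΛ : 0 ≤ Λ) (hΛL : Λ ≤ L) (hx : 0 ≤ x)
    {S : Finset ℝ} {c : ℝ → ℂ} {p : ℝ → ℝ} {ε : ℝ} (hp0 : ∀ t, 0 ≤ p t) (hp1 : ∀ t, p t ≤ 1)
    (hp : ∀ t, |p t - tp S c t| ≤ ε) (hε1 : ε ≤ 1)
    {q : ℝ → ℝ} (hq0 : ∀ t, 0 ≤ q t) (hq1 : ∀ t, 0 < p t → 1 ≤ q t) :
    4 * MW F A B (fun t => p t ^ 2) - 2 * MW F A B q - QW F g Λ A B S c -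
        ((18 * ε + 8 * (2 * Real.exp x + 1) * ε ^ 2) * NN F A B +
          (4 * (4 * oC S c + oC S c ^ 2) + 4 * (2 * Real.exp x + 1) * oC S c ^ 2 +
            8 * oC S c ^ 2) * DD F A B + 68 * FAR F A B L x) ≤ X1 F A B p ∧
    4 * MW F A B (fun t => p t ^ 2) - MW F A B q - QW F g Λ A B S c -
        ((18 * ε + 8 * (2 * Real.exp x + 1) * ε ^ 2) * NN F A B +
          (4 * (4 * oC S c + oC S c ^ 2) + 4 * (2 * Real.exp x + 1) * oC S c ^ 2 +
            8 * oC S c ^ 2) * DD F A B + 68 * FAR F A B L x) ≤ 2 * X2 F A B p := by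
  obtain ⟨E, iE1, iE2, k, hk⟩ := H143TG.gramG_exists hg Λ
  have hε0 := eps_nonneg hp
  have hC0 := oC_nonneg S c
  set C := oC S c with hCdef
  set W := Zf F A B with hW
  set Z : Finset ℂ := W.image zz with hZ
  set m : ℂ → ℕ := fun z => mult F (1 / 2 + I * z) with hm
  have hback : ∀ s : ℂ, (1 / 2 + I * zz s) = s := by
    intro s
    have := zz_spec s
    linear_combination -this
  have hmz : ∀ s : ℂ, m (zz s) = mult F s := by
    intro s; simp only [hm]; rw [hback]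
  have hWm : ∀ s ∈ W, s ∈ zset F A B := fun s hs => (mem_Zf hF hU).mp hs
  have hWpos : ∀ s ∈ W, 1 ≤ mult F s := by
    intro s hs
    have := hWm s hs
    exact Loc.mult_pos' hF (by linarith [this.2.2.1]) this.2.2.2.2
  have hZc : ∀ z ∈ Z, (starRingEnd ℂ) z ∈ Z := by
    intro z hz
    rw [hZ, Finset.mem_image] at hz
    obtain ⟨s, hs, rfl⟩ := hz
    rw [← zz_refl]
    exact Finset.mem_image_of_mem _ ((mem_Zf hF hU).mpr (zset_refl hF hU (hWm s hs)))
  have hmp : ∀ z ∈ Z, 1 ≤ m z := by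
    intro z hz
    rw [hZ, Finset.mem_image] at hz
    obtain ⟨s, hs, rfl⟩ := hz
    rw [hmz]
    exact hWpos s hs
  have hmc : ∀ z ∈ Z, m ((starRingEnd ℂ) z) = m z := by
    intro z hz
    rw [hZ, Finset.mem_image] at hz
    obtain ⟨s, hs, rfl⟩ := hz
    have := hWm s hs
    rw [← zz_refl, hmz, hmz, mult_refl hF this.1 this.2.1 (by linarith [this.2.2.1])]
  have hsumF : ∀ (P : ℂ → Prop) [DecidablePred P] (f : ℂ → ℝ), ∑ z ∈ Z.filter P, f z =
      ∑ s ∈ W.filter (fun s => P (zz s)), f (zz s) := by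
    intro P _ f
    rw [hZ, Finset.filter_image, Finset.sum_image (fun s _ s' _ h => zz_inj h)]
  have hcardF : ∀ (P : ℂ → Prop) [DecidablePred P],
      (Z.filter P).card = (W.filter (fun s => P (zz s))).card := by
    intro P _
    rw [hZ, Finset.filter_image, Finset.card_image_of_injective _ (fun s s' h => zz_inj h)]
  set a : ℂ → Prop := fun z => 0 < p z.re with ha
  set far : ℂ → Prop := fun z => x < |z.im| * L with hfar
  have hac : ∀ z, a ((starRingEnd ℂ) z) ↔ a z := by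
    intro z; simp only [ha, Complex.conj_re]
  have hfar0 : ∀ z, far z → z.im ≠ 0 := by
    intro z hz h0
    simp only [hfar, h0, abs_zero, zero_mul] at hz
    linarith
  have hcount := count_ineq Z hZc m hmp hmc (phiG g Λ) k hk (H143TG.phiG_even hg Λ)
    (H143TG.phiG_zero hg Λ) (om S c) (om_conj S c) a hac far hfar0
  obtain ⟨hc1, hc2⟩ := count_le Z hZc m hmp hmc a hac
  -- the numbers
  set x1 : ℝ := ((simp1 Z m a).card : ℝ) with hx1
  set y1 : ℝ := ((rest1 Z m a).card : ℝ) with hy1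
  have hX1 : x1 = X1 F A B p := by
    rw [hx1]
    unfold simp1 X1
    rw [hcardF]
    congr 2
    ext s
    simp only [Finset.mem_filter, ha, hmz, zz_re, zz_im]
    constructor
    · rintro ⟨h1, h2, h3, h4⟩; exact ⟨h1, by linarith, h4, h2⟩
    · rintro ⟨h1, h2, h3, h4⟩; exact ⟨h1, h4, by rw [h2]; ring, h3⟩
  have hX2 : (((Z.filter (fun z => a z ∧ 0 ≤ z.im)).card : ℕ) : ℝ) = X2 F A B p := by
    unfold X2
    rw [hcardF]
    congr 2
    ext s
    simp only [Finset.mem_filter, ha, zz_re, zz_im]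
    constructor
    · rintro ⟨h1, h2, h3⟩; exact ⟨h1, by linarith, h2⟩
    · rintro ⟨h1, h2, h3⟩; exact ⟨h1, h3, by linarith⟩
  have hN0 : (0 : ℝ) ≤ NN F A B := Nat.cast_nonneg _
  have hNN : (NN F A B : ℝ) = ∑ s ∈ W, (mult F s : ℝ) := by
    rw [NN_eq hF hU]; push_cast; rfl
  have hm0 : ∀ s : ℂ, (0 : ℝ) ≤ mult F s := fun s => Nat.cast_nonneg _
  have hsm : ∀ s ∈ W, |(zz s).im| ≤ 1 / 2 := fun s hs => zz_small (hWm s hs)
  -- N1
  have hN1 : ∑ z ∈ Z.filter a, (m z : ℝ) ≤ MW F A B q := by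
    rw [hsumF]
    unfold MW
    rw [Finset.sum_filter]
    refine Finset.sum_le_sum fun s _ => ?_
    simp only [ha, zz_re, hmz]
    split_ifs with h
    · have := hq1 _ h
      have := hm0 s
      nlinarith
    · exact mul_nonneg (hm0 s) (hq0 _)
  have hN1N : ∑ z ∈ Z.filter a, (m z : ℝ) ≤ NN F A B := by
    rw [hsumF, hNN]
    simp only [hmz]
    exact Finset.sum_le_sum_of_subset_of_nonneg (Finset.filter_subset _ _) fun s _ _ => hm0 s
  -- W1
  have hW1 : MW F A B (fun t => p t ^ 2) - 3 * ε * NN F A B - (4 * C + C ^ 2) * DD F A B ≤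
      ∑ z ∈ Z.filter a, (m z : ℝ) * (om S c z ^ 2).re := by
    rw [hsumF, hNN]
    unfold MW DD
    rw [Finset.mul_sum, Finset.mul_sum, ← Finset.sum_sub_distrib, ← Finset.sum_sub_distrib,
      Finset.sum_filter]
    refine Finset.sum_le_sum fun s hs => ?_
    simp only [ha, zz_re, hmz]
    have h1 := hm0 s
    have h3 := abs_nonneg (zz s).im
    split_ifs with h
    · have h2 := (abs_le.1 (om_sq hp0 hp1 hp hε1 (z := zz s) (hsm s hs))).1
      rw [zz_re, ← hCdef] at h2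
      have h4 : p s.im ^ 2 - 3 * ε - (4 * C + C ^ 2) * |(zz s).im| ≤ (om S c (zz s) ^ 2).re := by
        linarith
      calc _ = (mult F s : ℝ) * (p s.im ^ 2 - 3 * ε - (4 * C + C ^ 2) * |(zz s).im|) := by ring
        _ ≤ _ := mul_le_mul_of_nonneg_left h4 h1
    · have h5 : p s.im = 0 := le_antisymm (not_lt.1 h) (hp0 _)
      rw [h5]
      have h6 : 0 ≤ 3 * ε * (mult F s : ℝ) := by positivity
      have h7 : 0 ≤ (4 * C + C ^ 2) * ((mult F s : ℝ) * |(zz s).im|) := by positivity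
      simp only [ne_eq, OfNat.ofNat_ne_zero, not_false_eq_true, zero_pow, mul_zero, zero_sub]
      linarith
  -- simple zeros
  have hS1 : ∑ z ∈ simp1 Z m a, (om S c z ^ 2).re ≤ (1 + 3 * ε) * x1 := by
    rw [hx1, mul_comm, ← nsmul_eq_mul]
    refine Finset.sum_le_card_nsmul _ _ _ fun z hz => ?_
    unfold simp1 at hz
    rw [Finset.mem_filter] at hz
    have e1 : z = ((z.re : ℝ) : ℂ) := by
      apply Complex.ext
      · simp
      · rw [hz.2.2.1]; simp
    rw [e1]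
    exact om_line hp0 hp1 hp hε1 z.re
  -- the pair sum
  have hQ : (∑ z ∈ Z, ∑ w ∈ Z, (m z : ℂ) * (m w : ℂ) *
      (om S c z * om S c w * phiG g Λ (z - w)) ^ 2).re = QW F g Λ A B S c := by
    unfold QW
    congr 1
    rw [hZ, Finset.sum_image (fun s _ s' _ h => zz_inj h)]
    refine Finset.sum_congr rfl fun s _ => ?_
    rw [Finset.sum_image (fun s _ s' _ h => zz_inj h)]
    refine Finset.sum_congr rfl fun s' _ => ?_
    rw [hmz, hmz]
    ring
  -- near zeros
  have hnear : ∑ z ∈ Z.filter (fun z => ¬ a z ∧ ¬ far z),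
      4 * (m z : ℝ) * (‖om S c z‖ ^ 2 * (‖phiG g Λ (z - (starRingEnd ℂ) z)‖ + 1)) ≤
      8 * (2 * Real.exp x + 1) * ε ^ 2 * NN F A B +
        4 * (2 * Real.exp x + 1) * C ^ 2 * DD F A B := by
    rw [hsumF, hNN]
    unfold DD
    rw [Finset.mul_sum, Finset.mul_sum, ← Finset.sum_add_distrib]
    refine (Finset.sum_le_sum (g := fun s => 8 * (2 * Real.exp x + 1) * ε ^ 2 * (mult F s : ℝ) +
        4 * (2 * Real.exp x + 1) * C ^ 2 * ((mult F s : ℝ) * |(zz s).im|)) fun s hs => ?_).trans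
      (Finset.sum_le_sum_of_subset_of_nonneg (Finset.filter_subset _ _) fun s _ _ => by positivity)
    rw [Finset.mem_filter] at hs
    obtain ⟨hs1, hs2, hs3⟩ := hs
    simp only [ha, hfar, zz_re, not_lt] at hs2 hs3
    have h5 : p s.im = 0 := le_antisymm hs2 (hp0 _)
    have h6 := om_zero hp (z := zz s) (hsm s hs1) (by rw [zz_re]; exact h5)
    rw [← hCdef] at h6
    have h7 := phi_near hg hΛ hΛL (hsm s hs1) hs3
    rw [hmz]
    have h8 := hm0 s
    calc 4 * (mult F s : ℝ) * (‖om S c (zz s)‖ ^ 2 *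
          (‖phiG g Λ (zz s - (starRingEnd ℂ) (zz s))‖ + 1)) ≤
        4 * (mult F s : ℝ) * ((2 * ε ^ 2 + C ^ 2 * |(zz s).im|) * (2 * Real.exp x + 1)) := by
          gcongr
      _ = _ := by ring
  -- far zeros
  have hfarb : ∑ z ∈ Z.filter (fun z => ¬ a z ∧ far z), (m z : ℝ) * (8 * ‖om S c z‖ ^ 2 + 4) ≤
      68 * FAR F A B L x + 8 * C ^ 2 * DD F A B := by
    rw [hsumF]
    have h1 : ∑ s ∈ W.filter (fun s => ¬ a (zz s) ∧ far (zz s)),
        (m (zz s) : ℝ) * (8 * ‖om S c (zz s)‖ ^ 2 + 4) ≤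
        ∑ s ∈ W.filter (fun s => ¬ a (zz s) ∧ far (zz s)), 68 * (mult F s : ℝ) +
        ∑ s ∈ W.filter (fun s => ¬ a (zz s) ∧ far (zz s)),
          8 * C ^ 2 * ((mult F s : ℝ) * |(zz s).im|) := by
      rw [← Finset.sum_add_distrib]
      refine Finset.sum_le_sum fun s hs => ?_
      rw [Finset.mem_filter] at hs
      have h6 := om_bd hp0 hp1 hp hε1 (z := zz s) (hsm s hs.1)
      rw [← hCdef] at h6
      rw [hmz]
      have h8 := hm0 s
      calc (mult F s : ℝ) * (8 * ‖om S c (zz s)‖ ^ 2 + 4) ≤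
          (mult F s : ℝ) * (8 * (8 + C ^ 2 * |(zz s).im|) + 4) := by gcongr
        _ = _ := by ring
    refine h1.trans (add_le_add ?_ ?_)
    · unfold FAR
      rw [Finset.mul_sum]
      refine Finset.sum_le_sum_of_subset_of_nonneg ?_ fun s _ _ => by positivity
      intro s hs
      rw [Finset.mem_filter] at hs ⊢
      exact ⟨hs.1, hs.2.2⟩
    · unfold DD
      rw [Finset.mul_sum]
      exact Finset.sum_le_sum_of_subset_of_nonneg (Finset.filter_subset _ _)
        fun s _ _ => by positivity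
  rw [hQ] at hcount
  have hx10 : 0 ≤ x1 := Nat.cast_nonneg _
  have hy10 : 0 ≤ y1 := Nat.cast_nonneg _
  have hεx : ε * x1 ≤ ε * NN F A B := by
    apply mul_le_mul_of_nonneg_left _ hε0
    linarith
  rw [hX2] at hc2
  rw [← hX1]
  constructor <;> nlinarith

end TH803UC
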