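import Pool.Agent.TH803.UC.Block
import Pool.Agent.TH803.TW.Split

/-! Simple and distinct zeros against weights, in long intervals. -/

open Complex Filter Topology Set MeasureTheory
open scoped BigOperators ComplexConjugate

namespace TH803UC

open H370 H370.A2 H370.AS H295SI TH803TW

lemma X1_mono {F : ℂ → ℂ} (hF : GoodL F) {A B A' B' : ℝ} (hA : 1 ≤ A') (h1 : A' ≤ A) (h2 : B ≤ B')
    (p : ℝ → ℝ) : X1 F A B p ≤ X1 F A' B' p := by
  classical
  unfold X1
  exact Finset.card_le_card (Finset.filter_subset_filter _ (Zf_sub hF hA h1 h2))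

lemma X2_mono {F : ℂ → ℂ} (hF : GoodL F) {A B A' B' : ℝ} (hA : 1 ≤ A') (h1 : A' ≤ A) (h2 : B ≤ B')
    (p : ℝ → ℝ) : X2 F A B p ≤ X2 F A' B' p := by
  classical
  unfold X2
  exact Finset.card_le_card (Finset.filter_subset_filter _ (Zf_sub hF hA h1 h2))

lemma fin3 {k N N' m x η Mf c q TL X : ℝ} (hx : x = η * m) (hx0 : 0 ≤ x) (hη : 0 ≤ η)
    (hη1 : η ≤ 1 / 100) (hM : 0 ≤ Mf) (hc : 0 ≤ c) (hq : q ≤ m * (c + 2 * η))
    (hm : m ≤ N + 7 * x) (hTL : η * TL ≤ 19 * x) (hN' : η * N' ≤ 2 * x) (hd0 : 0 ≤ N - N')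
    (hd1 : N - N' ≤ x) (h : k * N' - (Mf + η) * q - η * TL - η * N' ≤ X) :
    (k - Mf * c) * N - (|k| + 7 * (Mf * c) + 2 * Mf + c + 22) * x ≤ X := by
  have q3 : (Mf + η) * q ≤ (Mf + η) * (m * (c + 2 * η)) :=
    mul_le_mul_of_nonneg_left hq (by linarith)
  have q4 : (Mf + η) * (m * (c + 2 * η)) ≤ Mf * c * m + (2 * Mf + c + 1) * x := by
    have : (Mf + η) * (m * (c + 2 * η)) = Mf * c * m + (2 * Mf + c + 2 * η) * x := by
      rw [hx]; ring
    rw [this]
    have h1 : (2 * Mf + c + 2 * η) * x ≤ (2 * Mf + c + 1) * x :=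
      mul_le_mul_of_nonneg_right (by linarith) hx0
    linarith
  have q5 : Mf * c * m ≤ Mf * c * (N + 7 * x) := mul_le_mul_of_nonneg_left hm (by positivity)
  have q6 : k * (N - N') ≤ |k| * x := by
    calc k * (N - N') ≤ |k| * (N - N') := mul_le_mul_of_nonneg_right (le_abs_self _) hd0
      _ ≤ |k| * x := mul_le_mul_of_nonneg_left hd1 (abs_nonneg _)
  have e2 : Mf * c * (N + 7 * x) = Mf * c * N + 7 * (Mf * c) * x := by ring
  have e3 : (|k| + 7 * (Mf * c) + 2 * Mf + c + 22) * x =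
      |k| * x + 7 * (Mf * c) * x + (2 * Mf + c + 1) * x + 21 * x := by ring
  have e4 : k * (N - N') = k * N - k * N' := by ring
  have e5 : (k - Mf * c) * N = k * N - Mf * c * N := by ring
  rw [e3, e5]
  linarith

/-- **simple and distinct zeros in long intervals** -/
theorem blockB {F : ℂ → ℂ} (hF : GoodL F) (hD : Dens F)
    {p q : ℝ → ℝ} {Mp M2 M4 Mq : ℝ} (hp : APm p Mp) (hp2 : APm (fun t => p t ^ 2) M2)
    (hp4 : APm (fun t => p t ^ 4) M4) (hq : APm q Mq) (hp0 : ∀ t, 0 ≤ p t) (hp1 : ∀ t, p t ≤ 1)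
    (hq0 : ∀ t, 0 ≤ q t) (hq1 : ∀ t, 0 < p t → 1 ≤ q t) (hM4 : 0 ≤ M4)
    (h ε : ℝ) (hh0 : 0 < h) (hhlt : h < 1) (hε : 0 < ε) :
    ∃ T0 : ℝ, 10 ≤ T0 ∧ ∀ T : ℝ, T0 ≤ T → ∀ H : ℝ, T / 3 ≤ H → H ≤ T / 2 →
      (4 * M2 - 2 * Mq - M4 * cc h - ε) * NN F T (T + H) ≤ X1 F T (T + H) p ∧
      (4 * M2 - Mq - M4 * cc h - ε) * NN F T (T + H) ≤ 2 * X2 F T (T + H) p := by
  have hh1 : h ≤ 1 := hhlt.le
  have hs2 : 0 < Real.sqrt 2 := Real.sqrt_pos.2 (by norm_num)
  set s : ℝ := Real.sqrt 2 * h with hs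
  have hs0 : 0 < s := by positivity
  have hs1 : s ≤ Real.sqrt 2 := by
    rw [hs]
    nlinarith
  have hW := H255SI.winS s hs0 hs1
  have hC := H793SI.convS s hs0 hs1
  have hK := H218SI3.kSqS s hs0 hs1
  have hc := H228SI.constS h hh0 hh1
  rw [← hs] at hc
  set R : ℝ → ℝ := RS s with hR
  set J : ℝ := ∫ α in (0 : ℝ)..1, α * R α with hJ
  have hJ0 : 0 ≤ J := by
    apply intervalIntegral.integral_nonneg (by norm_num)
    intro u hu
    exact mul_nonneg hu.1 (hC.nonneg u)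
  have hR0 : 0 ≤ R 0 := hC.nonneg 0
  have hcR : ∀ x, cR R x = R 0 / x + 2 * x * J := fun x => rfl
  have hcc0 : 0 ≤ cc h := by
    rw [← hc, hcR]
    positivity
  set e : ℝ := min ε 1 with he
  have he0 : 0 < e := lt_min hε one_pos
  have he1 : e ≤ ε := min_le_left _ _
  have he2 : e ≤ 1 := min_le_right _ _
  -- total constant
  set Q : ℝ := 1 + |4 * M2 - 2 * Mq| + |4 * M2 - Mq| + M4 + cc h + M4 * cc h with hQ
  have hMc : 0 ≤ M4 * cc h := by positivity
  have hk1 := abs_nonneg (4 * M2 - 2 * Mq)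
  have hk2 := abs_nonneg (4 * M2 - Mq)
  have hQ1 : 1 ≤ Q := by linarith only [hQ, hM4, hcc0, hMc, hk1, hk2]
  set η : ℝ := e / (100 * Q) with hη
  have hη0 : 0 < η := by positivity
  have hηQ : η * Q = e / 100 := by rw [hη]; field_simp
  have hη1 : η ≤ 1 / 100 := by
    have : η * 1 ≤ η * Q := by gcongr
    linarith only [this, hηQ, he2]
  set δ : ℝ := min (h / 2) (η * h ^ 2 / (2 * (R 0 + 1))) with hδ
  have hδ0 : 0 < δ := lt_min (by positivity) (by positivity)
  have hδ1 : δ ≤ h / 2 := min_le_left _ _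
  have hδ2 : δ * (2 * (R 0 + 1)) ≤ η * h ^ 2 := by
    have := min_le_right (h / 2) (η * h ^ 2 / (2 * (R 0 + 1)))
    rw [← hδ, le_div_iff₀ (by positivity)] at this
    exact this
  have hcδ : cR R (h - δ) ≤ cc h + η := by
    rw [hcR, ← hc, hcR]
    have hhδ : 0 < h - δ := by linarith only [hδ1, hh0]
    have h5 : R 0 / (h - δ) ≤ R 0 / h + η := by
      rw [div_le_iff₀ hhδ, add_mul, div_mul_eq_mul_div, ← sub_le_iff_le_add]
      have h6 : R 0 - η * (h - δ) ≤ R 0 * (h - δ) / h := by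
        rw [le_div_iff₀ hh0]
        have k1 : δ * R 0 ≤ η * h ^ 2 / 2 := by nlinarith only [hδ2, hδ0, hR0]
        have k2 : η * (h / 2) * h ≤ η * (h - δ) * h := by
          gcongr
          linarith only [hδ1]
        nlinarith only [k1, k2]
      linarith only [h6]
    have h7 : 2 * (h - δ) * J ≤ 2 * h * J := by nlinarith only [hδ0, hJ0]
    linarith only [h5, h7]
  have hPS := H613SI.pairShort H627SI.lamSmooth H228SI.qqJJ H965SI.countShort
    (H804JJ.jjShort H399SI.explShort Pool.Agent.H431R2.SI.outerShort)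
  obtain ⟨T2, hT2, hPC⟩ := hPS (gS s) R hW hC hK F hF h δ η hδ0 (by linarith) hh1 hη0
  obtain ⟨C, hC0, hends⟩ := H965SI.countShort F hF
  obtain ⟨a, ha, hld⟩ := hF.ld
  obtain ⟨T3, hT3, hbA⟩ := blockA hF hD hW hC hK ha hld hp hp2 hp4 hq hp0 hp1 hq0 hq1
    (h - δ / 4) (δ / 4) (h - δ) η
    (by positivity) (by linarith) (by linarith) (by linarith) hη0
  -- large T
  have ev1 := ev_log_pow η (C * 8) h 1 hη0 (by positivity) hh0
  have ev2 := ev_log_pow η (C ^ 2 * 8) h 2 hη0 (by positivity) hh0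
  have ev3 : ∀ᶠ T : ℝ in atTop, T ^ (h - δ / 4) ≤ T ^ h - 2 := by
    have h1 : ∀ᶠ T : ℝ in atTop, (2 : ℝ) ≤ T ^ (δ / 4) :=
      (tendsto_rpow_atTop (by positivity)).eventually_ge_atTop _
    have h2 : ∀ᶠ T : ℝ in atTop, (2 : ℝ) ≤ T ^ (h - δ / 4) :=
      (tendsto_rpow_atTop (by linarith)).eventually_ge_atTop _
    filter_upwards [h1, h2, eventually_gt_atTop (0 : ℝ)] with T h3 h4 h5
    have h6 : T ^ h = T ^ (h - δ / 4) * T ^ (δ / 4) := by
      rw [← Real.rpow_add h5]; congr 1; ring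
    rw [h6]
    nlinarith only [h3, h4]
  have ev4 : ∀ᶠ T : ℝ in atTop, 2 / δ + 2 ≤ Real.log T :=
    Real.tendsto_log_atTop.eventually_ge_atTop _
  have ev5 : ∀ᶠ T : ℝ in atTop, T ^ h ≤ T / 3 := by
    have h1 : ∀ᶠ T : ℝ in atTop, (3 : ℝ) ≤ T ^ (1 - h) :=
      (tendsto_rpow_atTop (by linarith)).eventually_ge_atTop _
    filter_upwards [h1, eventually_gt_atTop (0 : ℝ)] with T h3 h5
    have h6 : T = T ^ h * T ^ (1 - h) := by
      rw [← Real.rpow_add h5]; simp
    have h7 : 0 < T ^ h := Real.rpow_pos_of_pos h5 h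
    rw [le_div_iff₀ (by norm_num)]
    calc T ^ h * 3 ≤ T ^ h * T ^ (1 - h) := by gcongr
      _ = T := h6.symm
  have ev6 : ∀ᶠ T : ℝ in atTop, (100 : ℝ) ≤ T := eventually_ge_atTop _
  obtain ⟨T4, hT4⟩ := (((ev1.and ev2).and (ev3.and ev4)).and (ev5.and ev6)).exists_forall_of_atTop
  refine ⟨max (max 10 T2) (max (T3 + 1) T4), (le_max_left _ _).trans (le_max_left _ _),
    fun T hT H hH0 hH2 => ?_⟩
  have hT10 : 10 ≤ T := ((le_max_left _ _).trans (le_max_left _ _)).trans hT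
  have hTT2 : T2 ≤ T := ((le_max_right _ _).trans (le_max_left _ _)).trans hT
  have hTT3 : T3 ≤ T - 1 := by
    have := ((le_max_left _ _).trans (le_max_right _ _)).trans hT
    linarith only [this]
  obtain ⟨⟨⟨a1, a2⟩, a3, a4⟩, a5, a6⟩ :=
    hT4 T (((le_max_right _ _).trans (le_max_right _ _)).trans hT)
  have hH1 : T ^ h ≤ H := a5.trans hH0
  have hTpos : 0 < T := by linarith only [hT10]
  set L := Real.log T with hL
  have hL1 : 1 ≤ L := by
    have : 0 < 2 / δ := by positivity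
    linarith only [this, a4]
  have hH3 : 3 ≤ H := by
    have h1 : (1 : ℝ) ≤ T ^ (h - δ / 4) := Real.one_le_rpow (by linarith) (by linarith)
    linarith
  have hHpos : 0 < H := by linarith
  have hHT : H ≤ T := by linarith
  obtain ⟨U1, U2, hU1, hU1', hU2, hU2', hNN, hQQ⟩ := hPC T hTT2 H hH1 hHT
  set m : ℝ := H * L / (2 * Real.pi) with hm
  have hpi := Real.pi_pos
  have hpi2 : Real.pi < 3.15 := Real.pi_lt_d2
  have hpi3 : 3.14 < Real.pi := Real.pi_gt_d2
  have hm0 : 0 < m := by positivity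
  have hHL : H * L = 2 * Real.pi * m := by rw [hm]; field_simp
  have hHL7 : H * L ≤ 7 * m := by rw [hHL]; nlinarith only [hm0, hpi2]
  -- the log of T - 1
  have hlog1 : Real.log (T - 1) ≤ L := Real.log_le_log (by linarith only [hT10]) (by linarith only [])
  have hlog2 : L - 1 ≤ Real.log (T - 1) := by
    have h1 : T / Real.exp 1 ≤ T - 1 := by
      rw [div_le_iff₀ (Real.exp_pos _)]
      have := Real.exp_one_gt_d9
      nlinarith only [this, hT10]
    have h2 := Real.log_le_log (by positivity) h1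
    rw [Real.log_div (by linarith only [hT10]) (Real.exp_pos 1).ne', Real.log_exp] at h2
    exact h2
  have hlam1 : (h - δ) * Real.log (T - 1) ≤ (h - δ) * L :=
    mul_le_mul_of_nonneg_left hlog1 (by linarith only [hδ1, hh0])
  have hlam2 : (h - δ) * L ≤ (h - δ / 4 - δ / 4) * Real.log (T - 1) := by
    have h1 : (h - δ / 4 - δ / 4) * (L - 1) ≤ (h - δ / 4 - δ / 4) * Real.log (T - 1) :=
      mul_le_mul_of_nonneg_left hlog2 (by linarith only [hδ1, hh0])
    have h2 : 2 ≤ δ * L := by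
      have h3 : 2 / δ ≤ L := by linarith only [a4]
      rw [div_le_iff₀ hδ0] at h3
      linarith only [h3]
    nlinarith only [h1, h2, hδ0, hh1, hδ1]
  have hpow2 : (T - 1) ^ (h - δ / 4) ≤ U2 - U1 := by
    have h1 : (T - 1) ^ (h - δ / 4) ≤ T ^ (h - δ / 4) :=
      Real.rpow_le_rpow (by linarith only [hT10]) (by linarith only []) (by linarith only [hδ1, hh0])
    linarith only [h1, a3, hH1, hU1', hU2]
  obtain ⟨w1, w2⟩ := hbA (T - 1) hTT3 U1 U2 (by linarith only [hU1])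
    (by linarith only [hU2', hH2, hT10]) (by linarith only [hU1', hU2, hH0, a6]) hpow2
    ((h - δ) * L) hlam1 hlam2
  have hU : 1 ≤ U1 := by linarith only [hU1, hT10]
  have hUH : (T - 1) * Real.log (T - 1) ≤ 19 * m := by
    have h1 : 0 ≤ Real.log (T - 1) := by linarith only [hlog2, hL1]
    have h2 : T * L ≤ 3 * (H * L) := by
      have : T * L ≤ (3 * H) * L := by
        gcongr
        linarith only [hH0]
      linarith only [this]
    calc (T - 1) * Real.log (T - 1) ≤ T * L := by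
          gcongr; linarith only []
      _ ≤ 3 * (H * L) := h2
      _ ≤ 19 * m := by rw [hHL]; nlinarith only [hm0, hpi2]
  have hηUH : η * ((T - 1) * Real.log (T - 1)) ≤ 19 * (η * m) := by
    have := mul_le_mul_of_nonneg_left hUH hη0.le
    linarith only [this]
  set N' : ℝ := (NN F U1 U2 : ℝ) with hN'
  set N : ℝ := (NN F T (T + H) : ℝ) with hN
  have hNN2 : |N' - m| ≤ 7 * (η * m) := by
    refine hNN.trans ?_
    have := mul_le_mul_of_nonneg_left hHL7 hη0.le
    linarith only [this]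
  obtain ⟨n1, n2⟩ := abs_le.mp hNN2
  have hηm : 0 ≤ η * m := by positivity
  have hηm1 : η * m ≤ m / 100 := by
    have := mul_le_mul_of_nonneg_right hη1 hm0.le
    linarith only [this]
  have hend := (hends T hT10 H hH3 hHT U1 U2 hU1 hU1' hU2 hU2').2
  rw [← hN, ← hN', ← hL] at hend
  have hmono : N' ≤ N := by
    rw [hN, hN']
    exact_mod_cast NN_mono hF (by linarith only [hT10]) hU1 hU2'
  have hHm : H ≤ 7 * m := by
    have : H * 1 ≤ H * L := by gcongr
    linarith only [this, hHL7]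
  have hCL1 : C * L ≤ η * m := by
    have h1 : C * 8 * (1 + L) ≤ η * H := by
      have h2 := a1
      rw [pow_one] at h2
      exact h2.trans (by gcongr)
    have h3 : η * H ≤ 7 * (η * m) := by
      have := mul_le_mul_of_nonneg_left hHm hη0.le
      linarith only [this]
    have h5 : 0 ≤ C * 8 := by positivity
    nlinarith only [h1, h3, hC0, hηm]
  have hCL2 : (C * L) ^ 2 ≤ η * m := by
    have h1 : C ^ 2 * 8 * (1 + L) ^ 2 ≤ η * H := a2.trans (by gcongr)
    have h3 : η * H ≤ 7 * (η * m) := by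
      have := mul_le_mul_of_nonneg_left hHm hη0.le
      linarith only [this]
    have h4 : (C * L) ^ 2 ≤ C ^ 2 * (1 + L) ^ 2 := by
      rw [mul_pow]; gcongr; linarith only []
    linarith only [h1, h3, h4, hηm]
  have hdiff0 : 0 ≤ N - N' := by linarith only [hmono]
  have hdiff1 : N - N' ≤ η * m := by linarith only [hend, hCL1]
  have hdiff2 : (N - N') ^ 2 ≤ η * m := by
    refine le_trans ?_ hCL2
    gcongr
    linarith only [hend]
  have hNm1 : 0.9 * m ≤ N := by linarith only [n1, hmono, hηm1, hm0]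
  have hNm2 : m ≤ N / 0.9 := by rw [le_div_iff₀ (by norm_num)]; linarith only [hNm1]
  have hN'2 : N' ≤ 2 * m := by linarith only [n2, hηm1, hm0]
  have hN0 : 0 < N := by linarith only [hNm1, hm0]
  -- transfer from η m to e N
  have htrans : ∀ x : ℝ, 0 ≤ x → x ≤ 30 * Q → x * (η * m) ≤ e * N := by
    intro x hx hxQ
    calc x * (η * m) ≤ (30 * Q) * (η * m) := by gcongr
      _ = 30 * (η * Q) * m := by ring
      _ = (3 / 10 * e) * m := by rw [hηQ]; ring
      _ ≤ (3 / 10 * e) * (N / 0.9) := by gcongr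
      _ ≤ e * N := by
        rw [mul_div_assoc']
        rw [div_le_iff₀ (by norm_num)]
        nlinarith [mul_pos he0 hN0]
  have heN : e * N ≤ ε * N := by gcongr
  -- bounds
  have b8 : η * N' ≤ 2 * (η * m) := by
    have := mul_le_mul_of_nonneg_left hN'2 hη0.le
    linarith only [this]
  have q1 : QQG (gS s) F ((h - δ) * L) U1 U2 ≤ m * (cc h + 2 * η) := by
    refine hQQ.trans ?_
    exact mul_le_mul_of_nonneg_left (by linarith only [hcδ]) hm0.le
  have n3 : m ≤ N + 7 * (η * m) := by linarith only [n1, hmono]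
  have x1 : (X1 F U1 U2 p : ℝ) ≤ X1 F T (T + H) p := by
    exact_mod_cast X1_mono hF (by linarith only [hT10]) hU1 hU2' p
  have x2 : (X2 F U1 U2 p : ℝ) ≤ X2 F T (T + H) p := by
    exact_mod_cast X2_mono hF (by linarith only [hT10]) hU1 hU2' p
  have f1 := fin3 (x := η * m) rfl hηm hη0.le hη1 hM4 hcc0 q1 n3 hηUH b8 hdiff0 hdiff1
    (w1.trans x1)
  have f2 := fin3 (x := η * m) rfl hηm hη0.le hη1 hM4 hcc0 q1 n3 hηUH b8 hdiff0 hdiff1
    (w2.trans (by linarith only [x2] : 2 * (X2 F U1 U2 p : ℝ) ≤ 2 * X2 F T (T + H) p))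
  constructor
  · have h1 := (htrans (|4 * M2 - 2 * Mq| + 7 * (M4 * cc h) + 2 * M4 + cc h + 22) (by positivity)
      (by rw [hQ]; linarith only [hMc, hM4, hcc0, hk1, hk2])).trans heN
    have e1 : (4 * M2 - 2 * Mq - M4 * cc h - ε) * N = (4 * M2 - 2 * Mq - M4 * cc h) * N - ε * N := by
      ring
    rw [e1]
    linarith only [h1, f1]
  · have h1 := (htrans (|4 * M2 - Mq| + 7 * (M4 * cc h) + 2 * M4 + cc h + 22) (by positivity)
      (by rw [hQ]; linarith only [hMc, hM4, hcc0, hk1, hk2])).trans heN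
    have e1 : (4 * M2 - Mq - M4 * cc h - ε) * N = (4 * M2 - Mq - M4 * cc h) * N - ε * N := by
      ring
    rw [e1]
    linarith only [h1, f2]

end TH803UC
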