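import Pool.Agent.TH803.UC.Core

/-! The counting inequality with all error terms estimated. -/

open Complex Filter Topology Set MeasureTheory
open scoped BigOperators ComplexConjugate

namespace TH803UC

open H370 H370.A2 H295SI TH803TW

lemma QQG_nonneg {F : ℂ → ℂ} (hF : GoodL F) {A B : ℝ} (hU : 1 ≤ A) {g : ℝ → ℝ} (hg : Win g)
    (Λ : ℝ) : 0 ≤ QQG g F Λ A B := by
  classical
  have h := (H143TG.trace_zerosG hF hU (U2 := B) hg Λ).1
  have h1 : (Ns F A B : ℝ) ≤ NN F A B := by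
    have h2 : (Ns F A B : ℕ) ≤ NN F A B := by
      rw [Ns_card hF hU, NN_eq hF hU]
      have h3 : (SF F A B).card = ((Zf F A B).filter (fun s => s.re = 1 / 2 ∧ mult F s = 1)).card := by
        rw [Finset.card_eq_sum_ones, Finset.card_eq_sum_ones]
        exact sum_SF (fun _ => 1)
      rw [h3, Finset.card_filter]
      refine Finset.sum_le_sum fun s hs => ?_
      rw [mem_Zf hF hU] at hs
      have := Loc.mult_pos' hF (by linarith [hs.2.2.1]) hs.2.2.2.2
      split_ifs <;> omega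
    exact_mod_cast h2
  have h2 : (0 : ℝ) ≤ NN F A B := Nat.cast_nonneg _
  linarith

/-- `om` squared as a generalised trigonometric polynomial -/
lemma om_sq_gp (S : Finset ℝ) (c : ℝ → ℂ) (z : ℂ) : om S c z ^ 2 =
    gp ((S ×ˢ (Finset.univ : Finset Bool)) ×ˢ (S ×ˢ (Finset.univ : Finset Bool)))
      (fun i => bo c i.1 * bo c i.2) (fun i => lo i.1 + lo i.2) z := by
  unfold om
  rw [gp_sq]

theorem blockA {F : ℂ → ℂ} (hF : GoodL F) (hD : Dens F) {g R : ℝ → ℝ} (hg : Win g)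
    (hR : Conv R) (hK : KSq g R) {a : ℕ → ℂ}
    (ha : ∀ n, ‖a n‖ ≤ ArithmeticFunction.vonMangoldt n)
    (hld : ∀ s : ℂ, 1 < s.re → 1 ≤ s.im → deriv F s / F s = - ∑' n : ℕ, a n * (n : ℂ) ^ (-s))
    {p q : ℝ → ℝ} {Mp M2 M4 Mq : ℝ} (hp : APm p Mp) (hp2 : APm (fun t => p t ^ 2) M2)
    (hp4 : APm (fun t => p t ^ 4) M4) (hq : APm q Mq) (hp0 : ∀ t, 0 ≤ p t) (hp1 : ∀ t, p t ≤ 1)
    (hq0 : ∀ t, 0 ≤ q t) (hq1 : ∀ t, 0 < p t → 1 ≤ q t)
    (h ε lam η : ℝ) (hε : 0 < ε) (hεh : ε < h) (hh1 : h ≤ 1) (hlam : 0 < lam) (hη : 0 < η) :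
    ∃ T0 : ℝ, 10 ≤ T0 ∧ ∀ T : ℝ, T0 ≤ T → ∀ A B : ℝ, T + 1 ≤ A → B ≤ 2 * T - 1 →
      T / 4 ≤ B - A → T ^ h ≤ B - A → ∀ Λ : ℝ, lam * Real.log T ≤ Λ → Λ ≤ (h - ε) * Real.log T →
      (4 * M2 - 2 * Mq) * NN F A B - (M4 + η) * QQG g F Λ A B - η * (T * Real.log T) -
        η * NN F A B ≤ X1 F A B p ∧
      (4 * M2 - Mq) * NN F A B - (M4 + η) * QQG g F Λ A B - η * (T * Real.log T) -
        η * NN F A B ≤ 2 * X2 F A B p := by
  classical
  obtain ⟨κ, Cf, Tf, hκ, hCf, hTf, hfar⟩ := far_le hF hD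
  obtain ⟨CD, TD, hCD, hTD, hDD⟩ := DD_le hF hD
  -- the cut
  obtain ⟨x, hx0, hx⟩ : ∃ x : ℝ, 0 ≤ x ∧ 68 * (Cf * Real.exp (-(κ * x))) ≤ η / 8 := by
    have h1 : Tendsto (fun x : ℝ => 68 * (Cf * Real.exp (-(κ * x)))) atTop (𝓝 (68 * (Cf * 0))) := by
      refine Tendsto.const_mul _ (Tendsto.const_mul _ ?_)
      exact Real.tendsto_exp_neg_atTop_nhds_zero.comp (tendsto_id.const_mul_atTop hκ)
    rw [mul_zero, mul_zero] at h1
    have h2 : ∀ᶠ x : ℝ in atTop, 68 * (Cf * Real.exp (-(κ * x))) < η / 8 :=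
      h1.eventually_lt_const (by positivity)
    obtain ⟨x, h3, h4⟩ := (h2.and (eventually_ge_atTop (0 : ℝ))).exists
    exact ⟨x, h4, h3.le⟩
  set Ex : ℝ := 2 * Real.exp x + 1 with hEx
  have hEx0 : 0 < Ex := by positivity
  -- the approximation
  set e1 : ℝ := min 1 (η / (8 * (18 + 8 * Ex))) with he1
  have he10 : 0 < e1 := lt_min one_pos (by positivity)
  have he11 : e1 ≤ 1 := min_le_left _ _
  have he12 : e1 * (8 * (18 + 8 * Ex)) ≤ η := by
    have := min_le_right 1 (η / (8 * (18 + 8 * Ex)))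
    rw [← he1, le_div_iff₀ (by positivity)] at this
    exact this
  have he13 : 18 * e1 + 8 * Ex * e1 ^ 2 ≤ η / 8 := by
    have h1 : e1 ^ 2 ≤ e1 := by nlinarith
    have h2 : 8 * Ex * e1 ^ 2 ≤ 8 * Ex * e1 := by gcongr
    linarith
  have he14 : 15 * e1 ≤ η := by
    have h1 : 0 ≤ 8 * (8 * Ex) * e1 := by positivity
    linarith
  obtain ⟨S, c, -, hSc, -⟩ := hp e1 he10
  -- the pair sum
  set J := (S ×ˢ (Finset.univ : Finset Bool)) ×ˢ (S ×ˢ (Finset.univ : Finset Bool)) with hJ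
  set b : (ℝ × Bool) × (ℝ × Bool) → ℂ := fun i => bo c i.1 * bo c i.2 with hb
  set l : (ℝ × Bool) × (ℝ × Bool) → ℝ := fun i => lo i.1 + lo i.2 with hl
  have homgp : ∀ z, om S c z ^ 2 = gp J b l z := om_sq_gp S c
  have hmsq : (msq J b l).re ≤ M4 + η := by
    have h1 := msq_close J b l hp4 (δ := 15 * e1) (fun t => by
      rw [← homgp]
      exact om_four hp0 hp1 hSc he11 t)
    have h2 := (abs_le.1 h1).2
    linarith
  obtain ⟨T1, hT1, hpair⟩ := pairG hF hR hK ha hld J b l h ε lam (η / 8) hε hεh hh1 hlam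
    (by positivity)
  obtain ⟨T2, hT2, hW2⟩ := firstW hF hD ha hld hp2 (η := η / 32) (by positivity)
  obtain ⟨T3, hT3, hWq⟩ := firstW hF hD ha hld hq (η := η / 32) (by positivity)
  set CE : ℝ := 4 * (4 * oC S c + oC S c ^ 2) + 4 * Ex * oC S c ^ 2 + 8 * oC S c ^ 2 with hCE
  have hoC := oC_nonneg S c
  have hCE0 : 0 ≤ CE := by positivity
  have ev : ∀ᶠ T : ℝ in atTop, CE * CD / (η / 8) ≤ Real.log T :=
    Real.tendsto_log_atTop.eventually_ge_atTop _
  obtain ⟨T4, hT4⟩ := ev.exists_forall_of_atTop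
  refine ⟨max (max Tf TD) (max (max T1 T2) (max T3 T4)), hTf.trans ((le_max_left _ _).trans
    (le_max_left _ _)), fun T hT A B hA hB hAB hAB2 Λ hΛ1 hΛ2 => ?_⟩
  have hTTf : Tf ≤ T := ((le_max_left _ _).trans (le_max_left _ _)).trans hT
  have hTTD : TD ≤ T := ((le_max_right _ _).trans (le_max_left _ _)).trans hT
  have hTT1 : T1 ≤ T := ((le_max_left _ _).trans ((le_max_left _ _).trans (le_max_right _ _))).trans hT
  have hTT2 : T2 ≤ T := ((le_max_right _ _).trans ((le_max_left _ _).trans (le_max_right _ _))).trans hT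
  have hTT3 : T3 ≤ T := ((le_max_left _ _).trans ((le_max_right _ _).trans (le_max_right _ _))).trans hT
  have hTT4 : T4 ≤ T := ((le_max_right _ _).trans ((le_max_right _ _).trans (le_max_right _ _))).trans hT
  have hT10 : 10 ≤ T := hTf.trans hTTf
  have hTpos : 0 < T := by linarith
  have hlg := hT4 T hTT4
  set L := Real.log T with hL
  have hL0 : 0 < L := Real.log_pos (by linarith)
  have hU : 1 ≤ A := by linarith
  have hBA : B - A ≤ T := by linarith
  have hTL : 0 ≤ T * L := by positivity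
  have hΛ0 : 0 ≤ Λ := le_trans (by positivity) hΛ1
  have hΛL : Λ ≤ L := hΛ2.trans (by nlinarith)
  obtain ⟨hc1, hc2⟩ := core_ineq hF (B := B) hU hg hΛ0 hΛL hx0 hp0 hp1 hSc he11 hq0 hq1
  rw [← hEx, ← hCE] at hc1 hc2
  have hN0 : (0 : ℝ) ≤ NN F A B := Nat.cast_nonneg _
  have hQ0 := QQG_nonneg hF (B := B) hU hg Λ
  have b1 := (abs_le.1 (hW2 T hTT2 A B hA hB hAB)).1
  have b2 := (abs_le.1 (hWq T hTT3 A B hA hB hAB)).2
  have b3 := hpair T hTT1 A B hA hB hAB2 Λ hΛ1 hΛ2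
  have b4 : QW F g Λ A B S c ≤ (M4 + η) * QQG g F Λ A B + η / 8 * (T * L) := by
    have k1 : QW F g Λ A B S c = (∑ s ∈ Zf F A B, ∑ s' ∈ Zf F A B, (mult F s : ℂ) * (mult F s' : ℂ) *
          (gp J b l (zz s) * gp J b l (zz s') * (phiG g Λ (zz s - zz s')) ^ 2)).re := by
      unfold QW
      simp only [homgp]
    have k2 := (Complex.re_le_norm _).trans b3
    rw [Complex.sub_re, ← k1, Complex.re_mul_ofReal] at k2
    have k3 : (msq J b l).re * QQG g F Λ A B ≤ (M4 + η) * QQG g F Λ A B := by gcongr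
    have k4 : η / 8 * ((B - A) * L) ≤ η / 8 * (T * L) := by gcongr
    linarith
  have b5 : (18 * e1 + 8 * Ex * e1 ^ 2) * NN F A B ≤ η / 8 * NN F A B := by gcongr
  have b6 : CE * DD F A B ≤ η / 8 * (T * L) := by
    have k1 := hDD T hTTD A B (by linarith) (by linarith)
    rw [div_le_iff₀ (by positivity)] at hlg
    calc CE * DD F A B ≤ CE * (CD * T) := by gcongr
      _ = (CE * CD) * T := by ring
      _ ≤ (L * (η / 8)) * T := by gcongr
      _ = _ := by ring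
  have b7 : 68 * FAR F A B L x ≤ η / 8 * (T * L) := by
    have k1 := hfar T hTTf A B (by linarith) (by linarith) x
    have k2 : FAR F A B L x ≤ Cf * Real.exp (-(κ * x)) * (T * L) := k1
    calc 68 * FAR F A B L x ≤ 68 * (Cf * Real.exp (-(κ * x)) * (T * L)) := by gcongr
      _ = 68 * (Cf * Real.exp (-(κ * x))) * (T * L) := by ring
      _ ≤ η / 8 * (T * L) := by gcongr
  have b8 : 0 ≤ η * (T * L) := by positivity
  have b9 : 0 ≤ η * NN F A B := by positivity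
  constructor
  · linarith
  · linarith

end TH803UC
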