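import Pool.Agent.TH803.UC.Trace

/-! Counting simple real points in a set of points with the weighted trace inequality. -/

open scoped BigOperators ComplexConjugate

namespace TH803UC

open H370

section

variable (Z : Finset ℂ) (hZ : ∀ z ∈ Z, (starRingEnd ℂ) z ∈ Z) (m : ℂ → ℕ)
    (hm1 : ∀ z ∈ Z, 1 ≤ m z) (hmc : ∀ z ∈ Z, m ((starRingEnd ℂ) z) = m z)

include hZ hmc in
lemma split_real (G : ℂ → ℝ) (hG : ∀ z, G ((starRingEnd ℂ) z) = G z) :
    ∑ z ∈ Z, (m z : ℝ) * G z = ∑ z ∈ Z.filter (fun z => 0 ≤ z.im), cw m z * G z := by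
  have h := split_upper Z hZ m hmc (fun z => (G z : ℂ))
  apply Complex.ofReal_injective
  push_cast
  rw [h]
  refine Finset.sum_congr rfl fun z _ => ?_
  rw [hG z]
  ring

open Classical in
/-- the simple real points -/
noncomputable def simp1 (Z : Finset ℂ) (m : ℂ → ℕ) (a : ℂ → Prop) : Finset ℂ :=
  Z.filter (fun z => a z ∧ z.im = 0 ∧ m z = 1)

open Classical in
/-- the other points of the closed upper half plane -/
noncomputable def rest1 (Z : Finset ℂ) (m : ℂ → ℕ) (a : ℂ → Prop) : Finset ℂ :=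
  Z.filter (fun z => 0 ≤ z.im ∧ a z ∧ ¬ (z.im = 0 ∧ m z = 1))

open Classical in
include hZ hm1 hmc in
lemma count_le (a : ℂ → Prop) (ha : ∀ z, a ((starRingEnd ℂ) z) ↔ a z) :
    ((simp1 Z m a).card : ℝ) + 2 * ((rest1 Z m a).card : ℝ) ≤ ∑ z ∈ Z.filter a, (m z : ℝ) ∧
    ((simp1 Z m a).card : ℝ) + ((rest1 Z m a).card : ℝ) =
      ((Z.filter (fun z => a z ∧ 0 ≤ z.im)).card : ℝ) := by
  have e1 : ∑ z ∈ Z.filter a, (m z : ℝ) = ∑ z ∈ Z.filter (fun z => 0 ≤ z.im),
      cw m z * (if a z then 1 else 0) := by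
    rw [Finset.sum_filter, ← split_real Z hZ m hmc (fun z => if a z then 1 else 0)
      (fun z => by simp only [ha])]
    refine Finset.sum_congr rfl fun z _ => ?_
    split_ifs <;> simp
  have e2 : ((simp1 Z m a).card : ℝ) = ∑ z ∈ Z.filter (fun z => 0 ≤ z.im),
      (if a z ∧ z.im = 0 ∧ m z = 1 then (1 : ℝ) else 0) := by
    rw [Finset.sum_boole, Finset.filter_filter]
    unfold simp1
    congr 2
    ext z
    simp only [Finset.mem_filter]
    constructor
    · rintro ⟨h1, h2, h3, h4⟩; exact ⟨h1, h3.ge, h2, h3, h4⟩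
    · rintro ⟨h1, -, h2, h3, h4⟩; exact ⟨h1, h2, h3, h4⟩
  have e3 : ((rest1 Z m a).card : ℝ) = ∑ z ∈ Z.filter (fun z => 0 ≤ z.im),
      (if a z ∧ ¬ (z.im = 0 ∧ m z = 1) then (1 : ℝ) else 0) := by
    rw [Finset.sum_boole, Finset.filter_filter]
    rfl
  constructor
  · rw [e1, e2, e3, Finset.mul_sum, ← Finset.sum_add_distrib]
    refine Finset.sum_le_sum fun z hz => ?_
    rw [Finset.mem_filter] at hz
    have h1 : (1 : ℝ) ≤ m z := by exact_mod_cast hm1 z hz.1
    by_cases haz : a z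
    · by_cases hs : z.im = 0 ∧ m z = 1
      · simp only [haz, hs.1, hs.2, and_self, if_true, true_and, not_true_eq_false, if_false,
          mul_zero, add_zero, mul_one]
        unfold cw
        rw [if_pos hs.1, hs.2]
        simp
      · simp only [haz, hs, and_false, if_false, true_and, not_false_eq_true, if_true, zero_add,
          mul_one]
        unfold cw
        by_cases h0 : z.im = 0
        · rw [if_pos h0]
          have h3 : 2 ≤ m z := by
            have := hm1 z hz.1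
            have h4 : m z ≠ 1 := fun h => hs ⟨h0, h⟩
            omega
          exact_mod_cast h3
        · rw [if_neg h0]; linarith
    · simp only [haz, false_and, if_false, mul_zero, add_zero, le_refl]
  · have e4 : ((simp1 Z m a).card : ℝ) + ((rest1 Z m a).card : ℝ) =
        (((Z.filter a).filter (fun z => 0 ≤ z.im)).card : ℝ) := by
      rw [e2, e3, ← Finset.sum_add_distrib, Finset.card_filter, Nat.cast_sum, Finset.sum_filter,
        Finset.sum_filter]
      refine Finset.sum_congr rfl fun z _ => ?_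
      by_cases haz : a z
      · by_cases h0 : 0 ≤ z.im
        · by_cases hs : z.im = 0 ∧ m z = 1
          · simp [haz, hs.1, hs.2]
          · simp [haz, hs, h0]
        · simp [haz, h0]
      · simp [haz]
    rw [e4, Finset.filter_filter]

open Classical in
include hZ hm1 hmc in
/-- **the counting inequality** -/
theorem count_ineq {E : Type*} [NormedAddCommGroup E] [InnerProductSpace ℂ E]
    (φ : ℂ → ℂ) (k : ℂ → E) (hk : ∀ z w, inner ℂ (k z) (k w) = φ (w - (starRingEnd ℂ) z))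
    (hev : ∀ z, φ (-z) = φ z) (h0 : φ 0 = 1) (ω : ℂ → ℂ)
    (hω : ∀ z, ω ((starRingEnd ℂ) z) = (starRingEnd ℂ) (ω z))
    (a : ℂ → Prop) (ha : ∀ z, a ((starRingEnd ℂ) z) ↔ a z) (far : ℂ → Prop)
    (hfar : ∀ z, far z → z.im ≠ 0) :
    4 * ∑ z ∈ Z.filter a, (m z : ℝ) * (ω z ^ 2).re - 2 * ∑ z ∈ simp1 Z m a, (ω z ^ 2).re -
        ((simp1 Z m a).card : ℝ) - 4 * ((rest1 Z m a).card : ℝ) ≤
      (∑ z ∈ Z, ∑ w ∈ Z, (m z : ℂ) * (m w : ℂ) * (ω z * ω w * φ (z - w)) ^ 2).re +
        ∑ z ∈ Z.filter (fun z => ¬ a z ∧ ¬ far z),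
          4 * (m z : ℝ) * (‖ω z‖ ^ 2 * (‖φ (z - (starRingEnd ℂ) z)‖ + 1)) +
        ∑ z ∈ Z.filter (fun z => ¬ a z ∧ far z), (m z : ℝ) * (8 * ‖ω z‖ ^ 2 + 4) := by
  set K : ℂ → ℂ → ℂ := fun z w => ω z * ω w * φ (z - w) with hK
  have hkk : ∀ z w, inner ℂ (ω z • k z) (ω w • k w) = K ((starRingEnd ℂ) z) w := by
    intro z w
    simp only [hK]
    rw [inner_smul_left, inner_smul_right, hk, hω, ← hev (w - (starRingEnd ℂ) z), neg_sub]
    ring
  have hsym : ∀ z w, K z w = K w z := by
    intro z w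
    simp only [hK]
    rw [← hev (z - w), neg_sub]
    ring
  set d : ℂ → ℝ := fun z => if a z then (if z.im = 0 ∧ m z = 1 then 1 else 2) else
    (if far z then 2 else 0) with hd
  have hd2 : ∀ z, d z ≤ 2 := by
    intro z
    simp only [hd]
    split_ifs <;> norm_num
  have hT := trace_w K (fun z => ω z • k z) hkk hsym Z hZ m hmc d hd2
  have hKd : ∀ z, K z z = ω z ^ 2 := by
    intro z
    simp only [hK]
    rw [sub_self, h0]; ring
  -- the termwise inequality
  set t1 : ℂ → ℝ := fun z => cw m z * (if a z then (ω z ^ 2).re else 0) with ht1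
  set t2 : ℂ → ℝ := fun z => if a z ∧ z.im = 0 ∧ m z = 1 then (2 * (ω z ^ 2).re + 1) else 0 with ht2
  set t3 : ℂ → ℝ := fun z => if a z ∧ ¬ (z.im = 0 ∧ m z = 1) then (1 : ℝ) else 0 with ht3
  set t4 : ℂ → ℝ := fun z => if ¬ a z ∧ ¬ far z then
    4 * (m z : ℝ) * (‖ω z‖ ^ 2 * (‖φ (z - (starRingEnd ℂ) z)‖ + 1)) else 0 with ht4
  set t5 : ℂ → ℝ := fun z => if ¬ a z ∧ far z then (m z : ℝ) * (8 * ‖ω z‖ ^ 2 + 4) else 0 with ht5
  have hre : ∀ z, |(ω z ^ 2).re| ≤ ‖ω z‖ ^ 2 := by
    intro z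
    rw [← norm_pow]
    exact Complex.abs_re_le_norm _
  have hterm : ∀ z ∈ Z.filter (fun z => 0 ≤ z.im), 4 * t1 z - t2 z - 4 * t3 z - t4 z - t5 z ≤
      2 * (d z * (cw m z * (K z z).re)) - (d z) ^ 2 - (4 - 2 * d z) *
          (cw m z / 2 * ((K ((starRingEnd ℂ) z) z).re - (K z z).re)) := by
    intro z hz
    rw [Finset.mem_filter] at hz
    have hmz : (1 : ℝ) ≤ m z := by exact_mod_cast hm1 z hz.1
    have hr := abs_le.1 (hre z)
    rw [hKd]
    by_cases haz : a z
    · by_cases hs : z.im = 0 ∧ m z = 1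
      · have hzc : (starRingEnd ℂ) z = z := Complex.conj_eq_iff_im.mpr hs.1
        have hc1 : cw m z = 1 := by unfold cw; rw [if_pos hs.1, hs.2]; simp
        simp only [ht1, ht2, ht3, ht4, ht5, hd, haz, hs.1, hs.2, and_self, if_true, not_true_eq_false,
          and_false, false_and, if_false, hzc, hKd, hc1]
        linarith
      · simp only [ht1, ht2, ht3, ht4, ht5, hd, haz, hs, and_false, if_false, if_true,
          not_true_eq_false, false_and, true_and, not_false_eq_true]
        linarith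
    · by_cases hf : far z
      · have hc2 : cw m z = 2 * m z := by unfold cw; rw [if_neg (hfar z hf)]
        simp only [ht1, ht2, ht3, ht4, ht5, hd, haz, hf, false_and, if_false, if_true,
          not_true_eq_false, and_false, not_false_eq_true, and_self, hc2]
        have h1 : -((m z : ℝ) * ‖ω z‖ ^ 2) ≤ (m z : ℝ) * (ω z ^ 2).re := by
          rw [← mul_neg]
          exact mul_le_mul_of_nonneg_left hr.1 (by linarith)
        nlinarith
      · simp only [ht1, ht2, ht3, ht4, ht5, hd, haz, hf, false_and, if_false,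
          not_false_eq_true, and_self, if_true, and_false]
        by_cases h0' : z.im = 0
        · have hzc : (starRingEnd ℂ) z = z := Complex.conj_eq_iff_im.mpr h0'
          rw [hzc, hKd]
          have : 0 ≤ 4 * (m z : ℝ) * (‖ω z‖ ^ 2 * (‖φ (z - z)‖ + 1)) := by positivity
          linarith
        · have hc2 : cw m z = 2 * m z := by unfold cw; rw [if_neg h0']
          have h1 : (K ((starRingEnd ℂ) z) z).re ≤ ‖ω z‖ ^ 2 * ‖φ (z - (starRingEnd ℂ) z)‖ := by
            refine (Complex.re_le_norm _).trans ?_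
            simp only [hK]
            rw [norm_mul, norm_mul, hω, RCLike.norm_conj, ← hev ((starRingEnd ℂ) z - z), neg_sub]
            exact le_of_eq (by ring)
          rw [hc2]
          have h2 : (m z : ℝ) * ((K ((starRingEnd ℂ) z) z).re - (ω z ^ 2).re) ≤
              (m z : ℝ) * (‖ω z‖ ^ 2 * (‖φ (z - (starRingEnd ℂ) z)‖ + 1)) := by
            apply mul_le_mul_of_nonneg_left _ (by linarith)
            linarith
          nlinarith
  have hsum := Finset.sum_le_sum hterm
  have f1 : ∑ z ∈ Z.filter (fun z => 0 ≤ z.im), t1 z =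
      ∑ z ∈ Z.filter a, (m z : ℝ) * (ω z ^ 2).re := by
    rw [Finset.sum_filter a, ← split_real Z hZ m hmc (fun z => if a z then (ω z ^ 2).re else 0)]
    · refine Finset.sum_congr rfl fun z _ => ?_
      split_ifs <;> simp
    · intro z
      simp only [ha]
      rw [hω, ← map_pow, Complex.conj_re]
  have f2 : ∑ z ∈ Z.filter (fun z => 0 ≤ z.im), t2 z =
      2 * ∑ z ∈ simp1 Z m a, (ω z ^ 2).re + ((simp1 Z m a).card : ℝ) := by
    rw [Finset.mul_sum, Finset.card_eq_sum_ones, Nat.cast_sum, ← Finset.sum_add_distrib]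
    simp only [ht2]
    rw [← Finset.sum_filter, Finset.filter_filter]
    unfold simp1
    have : Z.filter (fun z => 0 ≤ z.im ∧ a z ∧ z.im = 0 ∧ m z = 1) =
        Z.filter (fun z => a z ∧ z.im = 0 ∧ m z = 1) := by
      ext z
      simp only [Finset.mem_filter]
      constructor
      · rintro ⟨h1, -, h2, h3, h4⟩; exact ⟨h1, h2, h3, h4⟩
      · rintro ⟨h1, h2, h3, h4⟩; exact ⟨h1, h3.ge, h2, h3, h4⟩
    rw [this]
    simp
  have f3 : ∑ z ∈ Z.filter (fun z => 0 ≤ z.im), t3 z = ((rest1 Z m a).card : ℝ) := by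
    simp only [ht3]
    rw [Finset.sum_boole, Finset.filter_filter]
    rfl
  have f4 : ∑ z ∈ Z.filter (fun z => 0 ≤ z.im), t4 z ≤
      ∑ z ∈ Z.filter (fun z => ¬ a z ∧ ¬ far z),
          4 * (m z : ℝ) * (‖ω z‖ ^ 2 * (‖φ (z - (starRingEnd ℂ) z)‖ + 1)) := by
    rw [Finset.sum_filter (fun z => ¬ a z ∧ ¬ far z)]
    exact Finset.sum_le_sum_of_subset_of_nonneg (Finset.filter_subset _ _) fun z _ _ => by
      simp only [ht4]
      split_ifs <;> positivity
  have f5 : ∑ z ∈ Z.filter (fun z => 0 ≤ z.im), t5 z ≤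
      ∑ z ∈ Z.filter (fun z => ¬ a z ∧ far z), (m z : ℝ) * (8 * ‖ω z‖ ^ 2 + 4) := by
    rw [Finset.sum_filter (fun z => ¬ a z ∧ far z)]
    exact Finset.sum_le_sum_of_subset_of_nonneg (Finset.filter_subset _ _) fun z _ _ => by
      simp only [ht5]
      split_ifs <;> positivity
  simp only [Finset.sum_sub_distrib, ← Finset.mul_sum] at hsum
  rw [f1, f2, f3] at hsum
  linarith

end

end TH803UC
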