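import Pool.Agent.TH803.UC.PairAsym

/-! Trigonometric polynomials as entire functions. -/

open Complex Filter Topology Set MeasureTheory
open scoped BigOperators ComplexConjugate

namespace TH803UC

open H370 H370.A2 H295SI TH803TW

section

variable {ι : Type} (J : Finset ι) (b : ι → ℂ) (l : ι → ℝ)

lemma gp_sq (z : ℂ) : (gp J b l z) ^ 2 =
    gp (J ×ˢ J) (fun p => b p.1 * b p.2) (fun p => l p.1 + l p.2) z := by
  unfold gp
  rw [sq, Finset.sum_mul_sum, Finset.sum_product]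
  refine Finset.sum_congr rfl fun i _ => Finset.sum_congr rfl fun j _ => ?_
  have : cexp (I * ((l i + l j : ℝ) : ℂ) * z) = cexp (I * l i * z) * cexp (I * l j * z) := by
    rw [← Complex.exp_add]; congr 1; push_cast; ring
  simp only
  rw [this]; ring

lemma gp_cont : Continuous (fun t : ℝ => gp J b l t) := by
  unfold gp
  fun_prop

open Classical in
lemma gp_mean : Tendsto (fun X : ℝ => (∫ t in (0 : ℝ)..X, (gp J b l t).re) / X) atTop
    (𝓝 (∑ i ∈ J, b i * (if l i = 0 then 1 else 0)).re) := by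
  have h1 : ∀ X : ℝ, 0 < X → ‖(∫ t in (0 : ℝ)..X, (gp J b l t).re) / X -
      (∑ i ∈ J, b i * (if l i = 0 then 1 else 0)).re‖ ≤ (∑ i ∈ J, ‖b i‖ * (2 / |l i|)) / X := by
    intro X hX
    have e1 : ∫ t in (0 : ℝ)..X, (gp J b l t).re =
        (∑ i ∈ J, b i * ∫ t in (0 : ℝ)..X, cexp (I * l i * t)).re := by
      have e2 : ∫ t in (0 : ℝ)..X, gp J b l t =
          ∑ i ∈ J, b i * ∫ t in (0 : ℝ)..X, cexp (I * l i * t) := by
        unfold gp
        rw [intervalIntegral.integral_finsetSum]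
        · refine Finset.sum_congr rfl fun i _ => ?_
          rw [intervalIntegral.integral_const_mul]
        · intro i _
          exact (by fun_prop : Continuous fun t : ℝ => b i * cexp (I * l i * t)).intervalIntegrable _ _
      rw [← e2]
      exact intervalIntegral.intervalIntegral_re ((gp_cont J b l).intervalIntegrable _ _)
    have e3 : (∫ t in (0 : ℝ)..X, (gp J b l t).re) / X -
        (∑ i ∈ J, b i * (if l i = 0 then 1 else 0)).re =
        (∑ i ∈ J, b i * ((∫ t in (0 : ℝ)..X, cexp (I * l i * t)) -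
          (X : ℂ) * (if l i = 0 then 1 else 0))).re / X := by
      rw [e1]
      have e4 : ∑ i ∈ J, b i * ((∫ t in (0 : ℝ)..X, cexp (I * l i * t)) -
          (X : ℂ) * (if l i = 0 then 1 else 0)) =
          ∑ i ∈ J, b i * (∫ t in (0 : ℝ)..X, cexp (I * l i * t)) -
          (X : ℂ) * ∑ i ∈ J, b i * (if l i = 0 then 1 else 0) := by
        rw [Finset.mul_sum, ← Finset.sum_sub_distrib]
        refine Finset.sum_congr rfl fun i _ => ?_
        ring
      rw [e4, Complex.sub_re, Complex.re_ofReal_mul]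
      field_simp
    rw [e3, norm_div, Real.norm_of_nonneg hX.le]
    gcongr
    refine (Complex.abs_re_le_norm _).trans ((norm_sum_le _ _).trans ?_)
    refine Finset.sum_le_sum fun i _ => ?_
    rw [norm_mul]
    gcongr
    by_cases hi : l i = 0
    · rw [if_pos hi, hi]
      simp
    · rw [if_neg hi, mul_zero, sub_zero]
      exact (exp_int (l i) 0 X hX.le).2 hi
  rw [tendsto_iff_norm_sub_tendsto_zero]
  have h2 : Tendsto (fun X : ℝ => (∑ i ∈ J, ‖b i‖ * (2 / |l i|)) / X) atTop (𝓝 0) :=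
    Tendsto.div_atTop tendsto_const_nhds tendsto_id
  refine squeeze_zero' (Eventually.of_forall fun _ => norm_nonneg _) ?_ h2
  filter_upwards [eventually_gt_atTop (0 : ℝ)] with X hX using h1 X hX

lemma msq_mean : Tendsto (fun X : ℝ => (∫ t in (0 : ℝ)..X, ((gp J b l t) ^ 2).re) / X) atTop
    (𝓝 (msq J b l).re) := by
  classical
  have h := gp_mean (J ×ˢ J) (fun p => b p.1 * b p.2) (fun p => l p.1 + l p.2)
  have e : ∑ i ∈ J ×ˢ J, b i.1 * b i.2 * (if l i.1 + l i.2 = 0 then (1 : ℂ) else 0) =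
      msq J b l := by
    unfold msq
    rw [Finset.sum_product]
  rw [e] at h
  refine h.congr fun X => ?_
  congr 1
  refine intervalIntegral.integral_congr fun t _ => ?_
  show (gp (J ×ˢ J) (fun p => b p.1 * b p.2) (fun p => l p.1 + l p.2) (t : ℂ)).re =
    ((gp J b l (t : ℂ)) ^ 2).re
  rw [gp_sq]

lemma msq_close {q : ℝ → ℝ} {M δ : ℝ} (hq : APm q M)
    (h : ∀ t : ℝ, |((gp J b l t) ^ 2).re - q t| ≤ δ) : |(msq J b l).re - M| ≤ δ := by
  refine le_of_forall_pos_le_add fun ε hε => ?_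
  obtain ⟨S, c, h0, h1, h2⟩ := hq (ε / 2) (by positivity)
  have h3 := (msq_mean J b l).sub (tp_mean c h0)
  have h4 := h3.abs
  have h5 : |(msq J b l).re - (c 0).re| ≤ δ + ε / 2 := by
    refine le_of_tendsto h4 ?_
    filter_upwards [eventually_gt_atTop (0 : ℝ)] with X hX
    have hc1 : Continuous fun t : ℝ => ((gp J b l t) ^ 2).re :=
      Complex.continuous_re.comp ((gp_cont J b l).pow 2)
    rw [← sub_div, abs_div, abs_of_pos hX, div_le_iff₀ hX,
      ← intervalIntegral.integral_sub (hc1.intervalIntegrable _ _)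
        ((tp_cont S c).intervalIntegrable _ _)]
    have h6 := intervalIntegral.norm_integral_le_of_norm_le_const (a := 0) (b := X)
      (f := fun t : ℝ => ((gp J b l t) ^ 2).re - tp S c t) (C := δ + ε / 2) (fun t _ => by
        rw [Real.norm_eq_abs]
        have e : ((gp J b l t) ^ 2).re - tp S c t = (((gp J b l t) ^ 2).re - q t) +
          (q t - tp S c t) := by ring
        rw [e]
        exact (abs_add_le _ _).trans (add_le_add (h t) (h1 t)))
    rw [sub_zero, abs_of_pos hX, Real.norm_eq_abs] at h6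
    exact h6
  have e : (msq J b l).re - M = ((msq J b l).re - (c 0).re) + ((c 0).re - M) := by ring
  rw [e]
  refine (abs_add_le _ _).trans ?_
  linarith

/-- size of the derivative -/
noncomputable def gC : ℝ := ∑ i ∈ J, ‖b i‖ * (|l i| * Real.exp |l i|)

lemma gC_nonneg : 0 ≤ gC J b l := Finset.sum_nonneg fun i _ => by positivity

lemma exp_sub_one (x : ℝ) : |Real.exp x - 1| ≤ |x| * Real.exp |x| := by
  rcases le_total 0 x with h | h
  · rw [abs_of_nonneg h, abs_of_nonneg (by have := Real.add_one_le_exp x; linarith)]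
    have h1 := Real.add_one_le_exp (-x)
    have h2 : Real.exp (-x) * Real.exp x = 1 := by rw [← Real.exp_add]; simp
    nlinarith [Real.exp_pos x]
  · have h3 : Real.exp x ≤ 1 := Real.exp_le_one_iff.2 h
    rw [abs_of_nonpos h, abs_of_nonpos (by linarith)]
    have h1 := Real.add_one_le_exp x
    have h2 : 1 ≤ Real.exp (-x) := Real.one_le_exp (by linarith)
    nlinarith

lemma gp_near {z : ℂ} (hz : |z.im| ≤ 1) : ‖gp J b l z - gp J b l (z.re : ℂ)‖ ≤
    gC J b l * |z.im| := by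
  unfold gp gC
  rw [← Finset.sum_sub_distrib, Finset.sum_mul]
  refine (norm_sum_le _ _).trans (Finset.sum_le_sum fun i _ => ?_)
  have e1 : cexp (I * l i * z) = cexp (I * l i * (z.re : ℂ)) * cexp ((-(l i * z.im) : ℝ) : ℂ) := by
    rw [← Complex.exp_add]
    congr 1
    nth_rewrite 1 [← Complex.re_add_im z]
    have hI : I ^ 2 = -1 := I_sq
    push_cast
    linear_combination (l i : ℂ) * (z.im : ℂ) * hI
  have e2 : b i * cexp (I * l i * z) - b i * cexp (I * l i * (z.re : ℂ)) =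
      b i * (cexp (I * l i * (z.re : ℂ)) * (cexp ((-(l i * z.im) : ℝ) : ℂ) - 1)) := by
    rw [e1]; ring
  rw [e2, norm_mul, norm_mul, tw_exp_norm, one_mul, ← Complex.ofReal_exp, ← Complex.ofReal_one,
    ← Complex.ofReal_sub, Complex.norm_real, Real.norm_eq_abs, mul_assoc]
  gcongr
  refine (exp_sub_one _).trans ?_
  rw [abs_neg, abs_mul]
  have h1 : |l i| * |z.im| ≤ |l i| := mul_le_of_le_one_right (abs_nonneg _) hz
  calc |l i| * |z.im| * Real.exp (|l i| * |z.im|) ≤ |l i| * |z.im| * Real.exp |l i| := by gcongr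
    _ = _ := by ring

end

/-! ### real trigonometric polynomials -/

/-- coefficients -/
noncomputable def bo (c : ℝ → ℂ) (p : ℝ × Bool) : ℂ := if p.2 then c p.1 / 2 else conj (c p.1) / 2

/-- frequencies -/
noncomputable def lo (p : ℝ × Bool) : ℝ := if p.2 then p.1 else -p.1

/-- the entire function extending `tp S c` -/
noncomputable def om (S : Finset ℝ) (c : ℝ → ℂ) (z : ℂ) : ℂ :=
  gp (S ×ˢ (Finset.univ : Finset Bool)) (bo c) lo z

lemma om_eq (S : Finset ℝ) (c : ℝ → ℂ) (z : ℂ) : om S c z =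
    ∑ τ ∈ S, (c τ / 2 * cexp (I * τ * z) + conj (c τ) / 2 * cexp (-(I * τ * z))) := by
  unfold om gp
  rw [Finset.sum_product]
  refine Finset.sum_congr rfl fun τ _ => ?_
  rw [Fintype.sum_bool]
  unfold bo lo
  simp only [if_true, Bool.false_eq_true, if_false]
  congr 2
  push_cast
  ring_nf

lemma om_conj (S : Finset ℝ) (c : ℝ → ℂ) (z : ℂ) : om S c (conj z) = conj (om S c z) := by
  rw [om_eq, om_eq, map_sum]
  refine Finset.sum_congr rfl fun τ _ => ?_
  rw [map_add, map_mul, map_mul, ← Complex.exp_conj, ← Complex.exp_conj, map_div₀, map_div₀,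
    map_neg, map_mul, map_mul, Complex.conj_I, Complex.conj_ofReal, Complex.conj_conj,
    Complex.conj_ofNat]
  have e1 : -I * (τ : ℂ) * conj z = -(I * τ * conj z) := by ring
  rw [e1, neg_neg]
  ring

lemma om_real (S : Finset ℝ) (c : ℝ → ℂ) (t : ℝ) : om S c t = (tp S c t : ℂ) := by
  rw [om_eq]
  unfold tp
  rw [Complex.re_sum, Complex.ofReal_sum]
  refine Finset.sum_congr rfl fun τ _ => ?_
  rw [Complex.re_eq_add_conj, map_mul, ← Complex.exp_conj, map_mul, map_mul, Complex.conj_I,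
    Complex.conj_ofReal, Complex.conj_ofReal]
  have e1 : -I * (τ : ℂ) * (t : ℂ) = -(I * τ * t) := by ring
  rw [e1]
  ring

/-- size of the derivative of `om` -/
noncomputable def oC (S : Finset ℝ) (c : ℝ → ℂ) : ℝ :=
  gC (S ×ˢ (Finset.univ : Finset Bool)) (bo c) lo

lemma oC_nonneg (S : Finset ℝ) (c : ℝ → ℂ) : 0 ≤ oC S c := gC_nonneg _ _ _

section weights

variable {S : Finset ℝ} {c : ℝ → ℂ} {p : ℝ → ℝ} {ε : ℝ} (hp0 : ∀ t, 0 ≤ p t) (hp1 : ∀ t, p t ≤ 1)
  (hp : ∀ t, |p t - tp S c t| ≤ ε) (hε1 : ε ≤ 1)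

include hp in
lemma om_close {z : ℂ} (hz : |z.im| ≤ 1) : ‖om S c z - p z.re‖ ≤ ε + oC S c * |z.im| := by
  have h1 : ‖om S c z - om S c (z.re : ℂ)‖ ≤ oC S c * |z.im| := gp_near _ _ _ hz
  have h2 : ‖om S c (z.re : ℂ) - p z.re‖ ≤ ε := by
    rw [om_real, ← Complex.ofReal_sub, Complex.norm_real, Real.norm_eq_abs, abs_sub_comm]
    exact hp _
  have e : om S c z - p z.re = (om S c (z.re : ℂ) - p z.re) + (om S c z - om S c (z.re : ℂ)) := by
    ring
  rw [e]
  exact (norm_add_le _ _).trans (add_le_add h2 h1)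

include hp in
lemma eps_nonneg : 0 ≤ ε := (abs_nonneg _).trans (hp 0)

include hp in
lemma om_zero {z : ℂ} (hz : |z.im| ≤ 1 / 2) (h : p z.re = 0) :
    ‖om S c z‖ ^ 2 ≤ 2 * ε ^ 2 + oC S c ^ 2 * |z.im| := by
  have h1 := om_close hp (z := z) (by linarith)
  rw [h, Complex.ofReal_zero, sub_zero] at h1
  have h2 := abs_nonneg z.im
  have h3 := oC_nonneg S c
  have h4 := eps_nonneg hp
  have h5 : ‖om S c z‖ ^ 2 ≤ (ε + oC S c * |z.im|) ^ 2 := by gcongr
  have h6 : (oC S c) ^ 2 * |z.im| ^ 2 ≤ (oC S c) ^ 2 * (1 / 2 * |z.im|) := by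
    gcongr
    nlinarith
  nlinarith [sq_nonneg (ε - oC S c * |z.im|)]

include hp0 hp1 hp hε1 in
lemma om_bd {z : ℂ} (hz : |z.im| ≤ 1 / 2) :
    ‖om S c z‖ ^ 2 ≤ 8 + oC S c ^ 2 * |z.im| := by
  have h1 := om_close hp (z := z) (by linarith)
  have h2 := abs_nonneg z.im
  have h3 := oC_nonneg S c
  have h4 := eps_nonneg hp
  have h7 : ‖om S c z‖ ≤ 2 + oC S c * |z.im| := by
    have h8 := norm_sub_norm_le (om S c z) (p z.re : ℂ)
    rw [Complex.norm_real, Real.norm_of_nonneg (hp0 _)] at h8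
    have := hp1 z.re
    linarith
  have h5 : ‖om S c z‖ ^ 2 ≤ (2 + oC S c * |z.im|) ^ 2 := by gcongr
  have h6 : (oC S c) ^ 2 * |z.im| ^ 2 ≤ (oC S c) ^ 2 * (1 / 2 * |z.im|) := by
    gcongr
    nlinarith
  nlinarith [sq_nonneg (2 - oC S c * |z.im|)]

include hp0 hp1 hp hε1 in
lemma om_sq {z : ℂ} (hz : |z.im| ≤ 1 / 2) :
    |(om S c z ^ 2).re - p z.re ^ 2| ≤ 3 * ε + (4 * oC S c + oC S c ^ 2) * |z.im| := by
  have h1 := om_close hp (z := z) (by linarith)
  have h2 := abs_nonneg z.im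
  have h3 := oC_nonneg S c
  have h4 := eps_nonneg hp
  have e1 : (om S c z ^ 2).re - p z.re ^ 2 = ((om S c z - p z.re) * (om S c z + p z.re)).re := by
    have : (om S c z - p z.re) * (om S c z + p z.re) = om S c z ^ 2 - ((p z.re ^ 2 : ℝ) : ℂ) := by
      push_cast; ring
    rw [this, Complex.sub_re, Complex.ofReal_re]
  rw [e1]
  refine (Complex.abs_re_le_norm _).trans ?_
  rw [norm_mul]
  have h5 : ‖om S c z + p z.re‖ ≤ 3 + oC S c * |z.im| := by
    have e2 : om S c z + p z.re = (om S c z - p z.re) + ((2 * p z.re : ℝ) : ℂ) := by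
      push_cast; ring
    rw [e2]
    refine (norm_add_le _ _).trans ?_
    rw [Complex.norm_real, Real.norm_of_nonneg (by have := hp0 z.re; linarith)]
    have := hp1 z.re
    linarith
  calc ‖om S c z - p z.re‖ * ‖om S c z + p z.re‖ ≤
      (ε + oC S c * |z.im|) * (3 + oC S c * |z.im|) := by gcongr
    _ = 3 * ε + (ε * oC S c) * |z.im| + 3 * oC S c * |z.im| + (oC S c) ^ 2 * (|z.im| * |z.im|) := by
        ring
    _ ≤ 3 * ε + (1 * oC S c) * |z.im| + 3 * oC S c * |z.im| + (oC S c) ^ 2 * (1 * |z.im|) := by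
        gcongr
        linarith
    _ = _ := by ring

include hp0 hp1 hp hε1 in
lemma om_line (t : ℝ) : (om S c t ^ 2).re ≤ 1 + 3 * ε := by
  have h4 := eps_nonneg hp
  rw [om_real, ← Complex.ofReal_pow, Complex.ofReal_re]
  have h1 := abs_le.1 (hp t)
  have h2 := hp0 t
  have h3 := hp1 t
  have h5 : |tp S c t| ≤ 1 + ε := by
    rw [abs_le]; constructor <;> linarith
  have h6 : tp S c t ^ 2 ≤ (1 + ε) ^ 2 := by
    rw [← sq_abs]
    gcongr
  nlinarith

include hp0 hp1 hp hε1 in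
lemma om_four (t : ℝ) : |((om S c t ^ 2) ^ 2).re - p t ^ 4| ≤ 15 * ε := by
  have h4 := eps_nonneg hp
  rw [om_real, ← Complex.ofReal_pow, ← Complex.ofReal_pow, Complex.ofReal_re]
  have h1 := abs_le.1 (hp t)
  have h2 := hp0 t
  have h3 := hp1 t
  set x := tp S c t
  set y := p t
  have hx : |x| ≤ 2 := by rw [abs_le]; constructor <;> linarith
  have hxy : |x - y| ≤ ε := by rw [abs_sub_comm]; exact hp t
  have hy : |y| ≤ 1 := by rw [abs_le]; constructor <;> linarith
  have e1 : (x ^ 2) ^ 2 - y ^ 4 = (x - y) * (x ^ 3 + x ^ 2 * y + x * y ^ 2 + y ^ 3) := by ring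
  rw [e1, abs_mul]
  have h5 : |x ^ 3 + x ^ 2 * y + x * y ^ 2 + y ^ 3| ≤ 15 := by
    have k1 : |x ^ 3| ≤ 8 := by
      rw [abs_pow]
      calc |x| ^ 3 ≤ 2 ^ 3 := by gcongr
        _ = 8 := by norm_num
    have k2 : |x ^ 2 * y| ≤ 4 := by
      rw [abs_mul, abs_pow]
      calc |x| ^ 2 * |y| ≤ 2 ^ 2 * 1 := by gcongr
        _ = 4 := by norm_num
    have k3 : |x * y ^ 2| ≤ 2 := by
      rw [abs_mul, abs_pow]
      calc |x| * |y| ^ 2 ≤ 2 * 1 ^ 2 := by gcongr
        _ = 2 := by norm_num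
    have k4 : |y ^ 3| ≤ 1 := by
      rw [abs_pow]
      calc |y| ^ 3 ≤ 1 ^ 3 := by gcongr
        _ = 1 := by norm_num
    calc |x ^ 3 + x ^ 2 * y + x * y ^ 2 + y ^ 3| ≤ |x ^ 3| + |x ^ 2 * y| + |x * y ^ 2| + |y ^ 3| := by
          refine (abs_add_le _ _).trans ?_
          gcongr
          refine (abs_add_le _ _).trans ?_
          gcongr
          exact abs_add_le _ _
      _ ≤ 15 := by linarith
  calc |x - y| * |x ^ 3 + x ^ 2 * y + x * y ^ 2 + y ^ 3| ≤ ε * 15 := by gcongr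
    _ = _ := by ring

end weights

end TH803UC
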