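import Pool.Agent.TH803.UC.JT
import Pool.Agent.TH803.TW.AP

/-! Twisted pair sums with general frequencies, unconditionally. -/

open Complex Filter Topology Set MeasureTheory
open scoped BigOperators ComplexConjugate

namespace TH803UC

open H370 H370.A2 H295SI TH803TW

/-- shifting the scale -/
lemma shift_bound {f : ℝ → ℝ} (hf : Continuous f) (h0 : ∀ x, 0 ≤ f x) (he : ∀ x, f (-x) = f x)
    {Λ : ℝ} (hΛ : 0 < Λ) (v : ℝ) :
    ∫ α in (-1 : ℝ)..1, f (Λ * α + v) ≤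
      2 * ((Λ + |v|) / Λ) * ∫ β in (0 : ℝ)..1, f ((Λ + |v|) * β) := by
  have hv := abs_nonneg v
  have hL : 0 < Λ + |v| := by linarith
  have e1 : ∫ α in (-1 : ℝ)..1, f (Λ * α + v) = Λ⁻¹ * ∫ u in (Λ * (-1) + v)..(Λ * 1 + v), f u := by
    rw [intervalIntegral.integral_comp_mul_add (fun x => f x) hΛ.ne' v, smul_eq_mul]
  have e2 : ∫ u in (Λ * (-1) + v)..(Λ * 1 + v), f u ≤
      ∫ u in (-(Λ + |v|))..(Λ + |v|), f u := by
    refine intervalIntegral.integral_mono_interval ?_ ?_ ?_ ?_ (hf.intervalIntegrable _ _)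
    · have := neg_abs_le v; linarith
    · linarith
    · have := le_abs_self v; linarith
    · exact Eventually.of_forall fun x => h0 x
  have e3 : ∫ u in (-(Λ + |v|))..(Λ + |v|), f u = 2 * ∫ u in (0 : ℝ)..(Λ + |v|), f u := by
    rw [← intervalIntegral.integral_add_adjacent_intervals (b := 0)
      (hf.intervalIntegrable _ _) (hf.intervalIntegrable _ _)]
    have h5 : ∫ u in (-(Λ + |v|))..0, f u = ∫ u in (0 : ℝ)..(Λ + |v|), f u := by
      have := intervalIntegral.integral_comp_neg (a := (0 : ℝ)) (b := Λ + |v|) f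
      simp_rw [he] at this
      rw [neg_zero] at this
      exact this.symm
    rw [h5]; ring
  have e4 : ∫ β in (0 : ℝ)..1, f ((Λ + |v|) * β) = (Λ + |v|)⁻¹ * ∫ u in (0 : ℝ)..(Λ + |v|), f u := by
    rw [intervalIntegral.integral_comp_mul_left (fun x => f x) hL.ne', smul_eq_mul, mul_zero,
      mul_one]
  rw [e1, e4]
  have e5 : 2 * ((Λ + |v|) / Λ) * ((Λ + |v|)⁻¹ * ∫ u in (0 : ℝ)..(Λ + |v|), f u) =
      Λ⁻¹ * (2 * ∫ u in (0 : ℝ)..(Λ + |v|), f u) := by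
    field_simp
  rw [e5, ← e3]
  exact mul_le_mul_of_nonneg_left e2 (by positivity)

/-- `R` vanishes outside `(-1, 1)` -/
lemma R_out {R : ℝ → ℝ} (hR : Conv R) {x : ℝ} (hx : 1 ≤ |x|) : R x = 0 := by
  have hc := H613SI.conv_cont hR
  have h1 : R 1 = 0 := by
    have h2 : Tendsto R (𝓝[>] 1) (𝓝 (R 1)) := hc.continuousAt.tendsto.mono_left nhdsWithin_le_nhds
    have h3 : Tendsto R (𝓝[>] 1) (𝓝 0) := by
      refine Tendsto.congr' ?_ tendsto_const_nhds
      filter_upwards [self_mem_nhdsWithin] with y hy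
      exact (hR.zero y hy).symm
    exact tendsto_nhds_unique h2 h3
  have h4 : R |x| = 0 := by
    rcases hx.eq_or_lt with h | h
    · rw [← h]; exact h1
    · exact hR.zero _ h
  rcases abs_cases x with h | h
  · rw [h.1] at h4; exact h4
  · rw [h.1, hR.even] at h4; exact h4

/-- effect of a shift on a smoothed integral -/
lemma shift_diff {R : ℝ → ℝ} (hR : Conv R) : ∃ K : ℝ, 0 < K ∧ ∀ f : ℝ → ℂ, Continuous f →
    (∀ x, f (-x) = f x) → ∀ Λ : ℝ, 0 < Λ → ∀ v : ℝ,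
    ‖(∫ α in (-1 : ℝ)..1, (R α : ℂ) * f (Λ * α + v)) - ∫ α in (-1 : ℝ)..1, (R α : ℂ) * f (Λ * α)‖ ≤
      K * (|v| / Λ) * (1 + |v| / Λ) * (2 * ∫ β in (0 : ℝ)..1, ‖f ((Λ + |v|) * β)‖) := by
  obtain ⟨K, hK, hlip⟩ := hR.lip
  have hc := H613SI.conv_cont hR
  refine ⟨K, hK, fun f hf he Λ hΛ v => ?_⟩
  have hv := abs_nonneg v
  set q : ℝ := |v| / Λ with hq
  have hq0 : 0 ≤ q := by positivity
  have hcC : Continuous fun x : ℝ => (R x : ℂ) := Complex.continuous_ofReal.comp hc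
  have whole : ∀ w : ℝ, |w| ≤ q → ∀ g : ℝ → ℂ, (∫ α : ℝ, (R (α - w) : ℂ) * g α) =
      ∫ α in (-(1 + q))..(1 + q), (R (α - w) : ℂ) * g α := by
    intro w hw g
    rw [intervalIntegral.integral_of_le (by linarith), setIntegral_eq_integral_of_forall_compl_eq_zero]
    intro x hx
    have h1 : 1 ≤ |x - w| := by
      rw [Set.mem_Ioc, not_and_or, not_lt, not_le] at hx
      have h2 := abs_le.1 hw
      rcases hx with h | h
      · rw [le_abs]; right; linarith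
      · rw [le_abs]; left; linarith
    rw [R_out hR h1]; simp
  have whole1 : ∀ g : ℝ → ℂ, (∫ α : ℝ, (R α : ℂ) * g α) =
      ∫ α in (-1 : ℝ)..1, (R α : ℂ) * g α := by
    intro g
    rw [intervalIntegral.integral_of_le (by norm_num), setIntegral_eq_integral_of_forall_compl_eq_zero]
    intro x hx
    have h1 : 1 ≤ |x| := by
      rw [Set.mem_Ioc, not_and_or, not_lt, not_le] at hx
      rcases hx with h | h
      · rw [le_abs]; right; linarith
      · rw [le_abs]; left; linarith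
    rw [R_out hR h1]; simp
  have e1 : (∫ α in (-1 : ℝ)..1, (R α : ℂ) * f (Λ * α + v)) =
      ∫ α in (-(1 + q))..(1 + q), (R (α - v / Λ) : ℂ) * f (Λ * α) := by
    rw [← whole (v / Λ) (by rw [abs_div, abs_of_pos hΛ]) (fun α => f (Λ * α)), ← whole1
      (fun α => f (Λ * α + v)), ← integral_sub_right_eq_self (μ := volume)
      (fun α : ℝ => (R α : ℂ) * f (Λ * α + v)) (v / Λ)]
    congr 1
    funext α
    congr 2
    field_simp
    ring
  have e2 : (∫ α in (-1 : ℝ)..1, (R α : ℂ) * f (Λ * α)) =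
      ∫ α in (-(1 + q))..(1 + q), (R α : ℂ) * f (Λ * α) := by
    rw [← whole1]
    have := whole 0 (by simpa using hq0) (fun α => f (Λ * α))
    simpa using this
  have hfc : Continuous fun α : ℝ => f (Λ * α) := hf.comp (by fun_prop)
  have hRs : Continuous fun α : ℝ => (R (α - v / Λ) : ℂ) := hcC.comp (by fun_prop)
  have hsub := intervalIntegral.integral_sub (μ := volume) (a := -(1 + q)) (b := 1 + q)
    (f := fun α : ℝ => (R (α - v / Λ) : ℂ) * f (Λ * α)) (g := fun α : ℝ => (R α : ℂ) * f (Λ * α))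
    ((hRs.mul hfc).intervalIntegrable _ _) ((hcC.mul hfc).intervalIntegrable _ _)
  rw [e1, e2, ← hsub]
  have hle : -(1 + q) ≤ 1 + q := by linarith
  refine (intervalIntegral.norm_integral_le_integral_norm hle).trans ?_
  have e3 : ∫ α in (-(1 + q))..(1 + q), ‖(R (α - v / Λ) : ℂ) * f (Λ * α) - (R α : ℂ) * f (Λ * α)‖ ≤
      ∫ α in (-(1 + q))..(1 + q), K * q * ‖f (Λ * α)‖ := by
    refine intervalIntegral.integral_mono_on hle ?_ ?_ fun α _ => ?_
    · exact ((hRs.mul hfc).sub (hcC.mul hfc)).norm.intervalIntegrable _ _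
    · exact (continuous_const.mul hfc.norm).intervalIntegrable _ _
    · rw [← sub_mul, norm_mul]
      apply mul_le_mul_of_nonneg_right _ (norm_nonneg _)
      rw [← Complex.ofReal_sub, Complex.norm_real, Real.norm_eq_abs]
      refine (hlip _ _).trans ?_
      rw [sub_sub_cancel_left, abs_neg, abs_div, abs_of_pos hΛ]
  refine e3.trans (le_of_eq ?_)
  rw [intervalIntegral.integral_const_mul]
  have hL : 0 < Λ + |v| := by linarith
  have e4 : ∫ α in (-(1 + q))..(1 + q), ‖f (Λ * α)‖ =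
      (1 + q) * ∫ β in (-1 : ℝ)..1, ‖f ((Λ + |v|) * β)‖ := by
    have h1 := intervalIntegral.integral_comp_mul_left (a := -1) (b := 1)
      (fun α : ℝ => ‖f (Λ * α)‖) (c := 1 + q) (by positivity)
    rw [smul_eq_mul, mul_neg_one, mul_one] at h1
    have h2 : ∀ β : ℝ, Λ * ((1 + q) * β) = (Λ + |v|) * β := by
      intro β
      rw [hq]; field_simp
    simp_rw [h2] at h1
    rw [h1]
    field_simp
  have e5 : ∫ β in (-1 : ℝ)..1, ‖f ((Λ + |v|) * β)‖ = 2 * ∫ β in (0 : ℝ)..1, ‖f ((Λ + |v|) * β)‖ := by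
    have hg : Continuous fun β : ℝ => ‖f ((Λ + |v|) * β)‖ := (hf.comp (by fun_prop)).norm
    rw [← intervalIntegral.integral_add_adjacent_intervals (b := 0)
      (hg.intervalIntegrable _ _) (hg.intervalIntegrable _ _)]
    have h5 : ∫ β in (-1 : ℝ)..0, ‖f ((Λ + |v|) * β)‖ = ∫ β in (0 : ℝ)..1, ‖f ((Λ + |v|) * β)‖ := by
      have := intervalIntegral.integral_comp_neg (a := (0 : ℝ)) (b := 1)
        (fun β : ℝ => ‖f ((Λ + |v|) * β)‖)
      simp_rw [mul_neg, he] at this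
      rw [neg_zero] at this
      exact this.symm
    rw [h5]; ring
  rw [e4, e5]; ring

section zeros

variable {F : ℂ → ℂ} (hF : GoodL F) {U1 U2 : ℝ} (hU : 1 ≤ U1)

/-- twisted pair sum -/
noncomputable def QTv (ψ : ℝ → ℝ) (F : ℂ → ℂ) (Λ U1 U2 μ v : ℝ) : ℂ :=
  ∑ s ∈ Zf F U1 U2, ∑ s' ∈ Zf F U1 U2, (mult F s : ℂ) * (mult F s' : ℂ) *
    ((∫ α in (-1 : ℝ)..1, (ψ α : ℂ) * cexp (I * (Λ * (zz s - zz s')) * α)) *
      cexp (-(zz s - zz s') ^ 2 / 4) *
      (cexp (I * v * (zz s - zz s')) * cexp (I * μ * ((zz s + zz s') / 2))))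

include hF hU in
lemma QTv_JT {ψ : ℝ → ℝ} (hψ : Continuous ψ) (Λ μ v : ℝ) : QTv ψ F Λ U1 U2 μ v =
    (cexp ((μ : ℂ) ^ 2 / 4) / Real.sqrt Real.pi) *
      ∫ α in (-1 : ℝ)..1, (ψ α : ℂ) * JT F U1 U2 (Λ * α + v) μ := by
  have hpi : (Real.sqrt Real.pi : ℂ) ≠ 0 := by
    rw [Ne, Complex.ofReal_eq_zero]; positivity
  have h3 : ∀ α : ℝ, (cexp ((μ : ℂ) ^ 2 / 4) / Real.sqrt Real.pi) *
      ((ψ α : ℂ) * JT F U1 U2 (Λ * α + v) μ) =
      ∑ s ∈ Zf F U1 U2, ∑ s' ∈ Zf F U1 U2, (mult F s : ℂ) * (mult F s' : ℂ) * ((ψ α : ℂ) *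
      cexp (I * (Λ * (zz s - zz s')) * α) * (cexp (-(zz s - zz s') ^ 2 / 4) *
        (cexp (I * v * (zz s - zz s')) * cexp (I * μ * ((zz s + zz s') / 2))))) := by
    intro α
    rw [JT_eq hF hU]
    have he : cexp ((μ : ℂ) ^ 2 / 4) * cexp (-(μ : ℂ) ^ 2 / 4) = 1 := by
      rw [← Complex.exp_add]
      have : (μ : ℂ) ^ 2 / 4 + -(μ : ℂ) ^ 2 / 4 = 0 := by ring
      rw [this, Complex.exp_zero]
    have e1 : (cexp ((μ : ℂ) ^ 2 / 4) / Real.sqrt Real.pi) * ((ψ α : ℂ) *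
        ((Real.sqrt Real.pi : ℂ) * cexp (-(μ : ℂ) ^ 2 / 4) *
        ∑ s ∈ Zf F U1 U2, ∑ s' ∈ Zf F U1 U2, (mult F s : ℂ) * (mult F s' : ℂ) *
          (cexp (I * ((Λ * α + v : ℝ) : ℂ) * (zz s - zz s')) * (cexp (-(zz s - zz s') ^ 2 / 4) *
            cexp (I * μ * ((zz s + zz s') / 2)))))) =
        (ψ α : ℂ) * ∑ s ∈ Zf F U1 U2, ∑ s' ∈ Zf F U1 U2, (mult F s : ℂ) * (mult F s' : ℂ) *
          (cexp (I * ((Λ * α + v : ℝ) : ℂ) * (zz s - zz s')) * (cexp (-(zz s - zz s') ^ 2 / 4) *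
            cexp (I * μ * ((zz s + zz s') / 2)))) := by
      set S0 := ∑ s ∈ Zf F U1 U2, ∑ s' ∈ Zf F U1 U2, (mult F s : ℂ) * (mult F s' : ℂ) *
          (cexp (I * ((Λ * α + v : ℝ) : ℂ) * (zz s - zz s')) * (cexp (-(zz s - zz s') ^ 2 / 4) *
            cexp (I * μ * ((zz s + zz s') / 2))))
      calc _ = (cexp ((μ : ℂ) ^ 2 / 4) * cexp (-(μ : ℂ) ^ 2 / 4)) *
            ((Real.sqrt Real.pi : ℂ) / Real.sqrt Real.pi) * ((ψ α : ℂ) * S0) := by ring
        _ = _ := by rw [he, div_self hpi, one_mul, one_mul]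
    rw [e1, Finset.mul_sum]
    refine Finset.sum_congr rfl fun s _ => ?_
    rw [Finset.mul_sum]
    refine Finset.sum_congr rfl fun s' _ => ?_
    have e2 : cexp (I * ((Λ * α + v : ℝ) : ℂ) * (zz s - zz s')) =
        cexp (I * (Λ * (zz s - zz s')) * α) * cexp (I * v * (zz s - zz s')) := by
      rw [← Complex.exp_add]; congr 1; push_cast; ring
    rw [e2]; ring
  rw [← intervalIntegral.integral_const_mul]
  simp_rw [h3]
  have hc : ∀ s s' : ℂ, Continuous fun α : ℝ => (mult F s : ℂ) * (mult F s' : ℂ) * ((ψ α : ℂ) *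
      cexp (I * (Λ * (zz s - zz s')) * α) * (cexp (-(zz s - zz s') ^ 2 / 4) *
        (cexp (I * v * (zz s - zz s')) * cexp (I * μ * ((zz s + zz s') / 2))))) := by
    intro s s'
    fun_prop
  rw [intervalIntegral.integral_finsetSum]
  swap
  · intro s _
    exact (continuous_finsetSum _ fun s' _ => hc s s').intervalIntegrable _ _
  unfold QTv
  refine Finset.sum_congr rfl fun s _ => ?_
  rw [intervalIntegral.integral_finsetSum]
  swap
  · intro s' _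
    exact (hc s s').intervalIntegrable _ _
  refine Finset.sum_congr rfl fun s' _ => ?_
  rw [intervalIntegral.integral_const_mul, intervalIntegral.integral_mul_const]
  ring

lemma pre_norm (μ : ℝ) : ‖cexp ((μ : ℂ) ^ 2 / 4) / Real.sqrt Real.pi‖ ≤ Real.exp (μ ^ 2 / 4) := by
  rw [norm_div, Complex.norm_real, Real.norm_of_nonneg (Real.sqrt_nonneg _)]
  have : (μ : ℂ) ^ 2 / 4 = ((μ ^ 2 / 4 : ℝ) : ℂ) := by push_cast; ring
  rw [this, Complex.norm_exp, Complex.ofReal_re]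
  apply div_le_self (Real.exp_pos _).le
  rw [Real.one_le_sqrt]
  linarith [Real.pi_gt_three]

include hF hU in
lemma QTv_bound {R : ℝ → ℝ} (hR : Conv R) {Λ : ℝ} (hΛ : 0 < Λ) (μ v : ℝ) :
    ‖QTv R F Λ U1 U2 μ v‖ ≤ Real.exp (μ ^ 2 / 4) * (R 0 * (2 * ((Λ + |v|) / Λ) *
      ∫ β in (0 : ℝ)..1, ‖JT F U1 U2 ((Λ + |v|) * β) μ‖)) := by
  have hc := H613SI.conv_cont hR
  rw [QTv_JT hF hU hc, norm_mul]
  have hJ := JT_cont hF hU (U2 := U2) μ
  have hJc : Continuous fun α : ℝ => JT F U1 U2 (Λ * α + v) μ := hJ.comp (by fun_prop)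
  refine mul_le_mul (pre_norm μ) ?_ (norm_nonneg _) (Real.exp_pos _).le
  have h1 : ∀ α ∈ Set.Icc (-1 : ℝ) 1, R α ≤ R 0 := by
    intro α _
    rcases le_total 0 α with h | h
    · exact H613SI.conv_le hR α h
    · rw [← hR.even]; exact H613SI.conv_le hR (-α) (by linarith)
  refine (intervalIntegral.norm_integral_le_integral_norm (by norm_num)).trans ?_
  have h2 : ∫ α in (-1 : ℝ)..1, ‖(R α : ℂ) * JT F U1 U2 (Λ * α + v) μ‖ ≤
      ∫ α in (-1 : ℝ)..1, R 0 * ‖JT F U1 U2 (Λ * α + v) μ‖ := by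
    refine intervalIntegral.integral_mono_on (by norm_num) ?_ ?_ fun α hα => ?_
    · exact ((Complex.continuous_ofReal.comp hc).mul hJc).norm.intervalIntegrable _ _
    · exact (continuous_const.mul hJc.norm).intervalIntegrable _ _
    · rw [norm_mul, Complex.norm_real, Real.norm_of_nonneg (hR.nonneg _)]
      exact mul_le_mul_of_nonneg_right (h1 α hα) (norm_nonneg _)
  refine h2.trans ?_
  rw [intervalIntegral.integral_const_mul]
  apply mul_le_mul_of_nonneg_left _ (hR.nonneg 0)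
  exact shift_bound (f := fun u => ‖JT F U1 U2 u μ‖) hJ.norm (fun _ => norm_nonneg _)
    (fun u => by simp only [JT_even hF hU]) hΛ v

lemma QTv_diff {R : ℝ → ℝ} (hR : Conv R) : ∃ K : ℝ, 0 < K ∧ ∀ F : ℂ → ℂ, GoodL F →
    ∀ U1 U2 : ℝ, 1 ≤ U1 → ∀ Λ : ℝ, 0 < Λ → ∀ v : ℝ,
    ‖QTv R F Λ U1 U2 0 v - QTv R F Λ U1 U2 0 0‖ ≤
      K * (|v| / Λ) * (1 + |v| / Λ) * (2 * ∫ β in (0 : ℝ)..1, ‖JT F U1 U2 ((Λ + |v|) * β) 0‖) := by
  obtain ⟨K, hK, hd⟩ := shift_diff hR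
  have hc := H613SI.conv_cont hR
  refine ⟨K, hK, fun F hF U1 U2 hU Λ hΛ v => ?_⟩
  rw [QTv_JT hF hU hc, QTv_JT hF hU hc]
  simp only [add_zero]
  rw [← mul_sub, norm_mul]
  have h1 := hd (fun u => JT F U1 U2 u 0) (JT_cont hF hU 0) (fun u => JT_even hF hU u 0) Λ hΛ v
  have h2 := pre_norm 0
  simp only [ne_eq, OfNat.ofNat_ne_zero, not_false_eq_true, zero_pow, zero_div, Real.exp_zero] at h2
  calc _ ≤ 1 * (K * (|v| / Λ) * (1 + |v| / Λ) *
        (2 * ∫ β in (0 : ℝ)..1, ‖JT F U1 U2 ((Λ + |v|) * β) 0‖)) := by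
        exact mul_le_mul h2 h1 (norm_nonneg _) zero_le_one
    _ = _ := one_mul _

lemma JT_zero_im (u : ℝ) : (JT F U1 U2 u 0).im = 0 := by
  have : JT F U1 U2 u 0 = ((∫ t : ℝ, ‖AA F U1 U2 u t‖ ^ 2 : ℝ) : ℂ) := by
    unfold JT
    rw [← integral_complex_ofReal]
    congr 1
    funext t
    simp
  rw [this, Complex.ofReal_im]

lemma phiG_sq {g R : ℝ → ℝ} (hK : KSq g R) (Λ : ℝ) (z : ℂ) : (phiG g Λ z) ^ 2 =
    (∫ α in (-1 : ℝ)..1, (R α : ℂ) * cexp (I * (Λ * z) * α)) * cexp (-z ^ 2 / 4) := by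
  unfold phiG
  rw [mul_pow, hK, ← Complex.exp_nat_mul]
  congr 2
  push_cast
  ring

include hF hU in
lemma QTv_zero {g R : ℝ → ℝ} (hR : Conv R) (hK : KSq g R) (Λ : ℝ) :
    QTv R F Λ U1 U2 0 0 = (QQG g F Λ U1 U2 : ℂ) := by
  have h1 : QTv R F Λ U1 U2 0 0 = ∑ s ∈ Zf F U1 U2, ∑ s' ∈ Zf F U1 U2,
      (mult F s : ℂ) * (mult F s' : ℂ) * (phiG g Λ (zz s - zz s')) ^ 2 := by
    unfold QTv
    refine Finset.sum_congr rfl fun s _ => Finset.sum_congr rfl fun s' _ => ?_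
    rw [phiG_sq hK]
    simp
  have h2 : (QTv R F Λ U1 U2 0 0).im = 0 := by
    have hc := H613SI.conv_cont hR
    rw [QTv_JT hF hU hc]
    simp only [add_zero]
    have h3 : (∫ α in (-1 : ℝ)..1, (R α : ℂ) * JT F U1 U2 (Λ * α) 0) =
        ((∫ α in (-1 : ℝ)..1, R α * (JT F U1 U2 (Λ * α) 0).re : ℝ) : ℂ) := by
      rw [← intervalIntegral.integral_ofReal]
      refine intervalIntegral.integral_congr fun α _ => ?_
      show (R α : ℂ) * JT F U1 U2 (Λ * α) 0 = ((R α * (JT F U1 U2 (Λ * α) 0).re : ℝ) : ℂ)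
      rw [Complex.ofReal_mul]
      congr 1
      apply Complex.ext
      · simp
      · rw [JT_zero_im]; simp
    have h4 : cexp (((0 : ℝ) : ℂ) ^ 2 / 4) / (Real.sqrt Real.pi : ℂ) =
        ((1 / Real.sqrt Real.pi : ℝ) : ℂ) := by
      push_cast; simp
    rw [h3, h4, ← Complex.ofReal_mul, Complex.ofReal_im]
  apply Complex.ext
  · rw [Complex.ofReal_re, H143TG.QQG_eq hF hU, h1]
  · rw [Complex.ofReal_im, h2]

/-- generalised trigonometric polynomial -/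
noncomputable def gp {ι : Type} (J : Finset ι) (b : ι → ℂ) (l : ι → ℝ) (z : ℂ) : ℂ :=
  ∑ i ∈ J, b i * cexp (I * l i * z)

lemma pair_expand {g R : ℝ → ℝ} (hK : KSq g R) {ι : Type} (J : Finset ι) (b : ι → ℂ) (l : ι → ℝ)
    (Λ : ℝ) :
    ∑ s ∈ Zf F U1 U2, ∑ s' ∈ Zf F U1 U2, (mult F s : ℂ) * (mult F s' : ℂ) *
      (gp J b l (zz s) * gp J b l (zz s') * (phiG g Λ (zz s - zz s')) ^ 2) =
    ∑ i ∈ J, ∑ j ∈ J, b i * b j * QTv R F Λ U1 U2 (l i + l j) ((l i - l j) / 2) := by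
  have h1 : ∀ i ∈ J, ∀ j ∈ J, b i * b j * QTv R F Λ U1 U2 (l i + l j) ((l i - l j) / 2) =
      ∑ s ∈ Zf F U1 U2, ∑ s' ∈ Zf F U1 U2, (mult F s : ℂ) * (mult F s' : ℂ) *
      ((b i * cexp (I * l i * zz s)) * (b j * cexp (I * l j * zz s')) *
        (phiG g Λ (zz s - zz s')) ^ 2) := by
    intro i _ j _
    unfold QTv
    rw [Finset.mul_sum]
    refine Finset.sum_congr rfl fun s _ => ?_
    rw [Finset.mul_sum]
    refine Finset.sum_congr rfl fun s' _ => ?_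
    rw [phiG_sq hK]
    have e1 : cexp (I * (((l i - l j) / 2 : ℝ) : ℂ) * (zz s - zz s')) *
        cexp (I * ((l i + l j : ℝ) : ℂ) * ((zz s + zz s') / 2)) =
        cexp (I * l i * zz s) * cexp (I * l j * zz s') := by
      rw [← Complex.exp_add, ← Complex.exp_add]; congr 1; push_cast; ring
    rw [e1]; ring
  rw [Finset.sum_congr rfl fun i hi => Finset.sum_congr rfl fun j hj => h1 i hi j hj]
  have h2 : ∀ s s' : ℂ, (mult F s : ℂ) * (mult F s' : ℂ) *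
      (gp J b l (zz s) * gp J b l (zz s') * (phiG g Λ (zz s - zz s')) ^ 2) =
      ∑ i ∈ J, ∑ j ∈ J, (mult F s : ℂ) * (mult F s' : ℂ) *
      ((b i * cexp (I * l i * zz s)) * (b j * cexp (I * l j * zz s')) *
        (phiG g Λ (zz s - zz s')) ^ 2) := by
    intro s s'
    unfold gp
    rw [Finset.sum_mul_sum, Finset.sum_mul, Finset.mul_sum]
    refine Finset.sum_congr rfl fun i _ => ?_
    rw [Finset.sum_mul, Finset.mul_sum]
  simp_rw [h2]
  rw [Finset.sum_congr rfl fun s _ => Finset.sum_comm, Finset.sum_comm]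
  refine Finset.sum_congr rfl fun i _ => ?_
  rw [Finset.sum_congr rfl fun s _ => Finset.sum_comm, Finset.sum_comm]

end zeros

end TH803UC
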