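import Pool.Agent.TH803.UC.Pair

/-! Asymptotics of pair sums of trigonometric polynomials, unconditionally. -/

open Complex Filter Topology Set MeasureTheory
open scoped BigOperators ComplexConjugate

namespace TH803UC

open H370 H370.A2 H295SI TH803TW

open Classical in
theorem QTv_asym {F : ℂ → ℂ} (hF : GoodL F) {g R : ℝ → ℝ} (hR : Conv R) (hK : KSq g R)
    {a : ℕ → ℂ} (ha : ∀ n, ‖a n‖ ≤ ArithmeticFunction.vonMangoldt n)
    (hld : ∀ s : ℂ, 1 < s.re → 1 ≤ s.im → deriv F s / F s = - ∑' n : ℕ, a n * (n : ℂ) ^ (-s))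
    (μ v : ℝ) (h ε lam η : ℝ) (hε : 0 < ε) (hεh : ε < h) (hh1 : h ≤ 1) (hlam : 0 < lam)
    (hη : 0 < η) :
    ∃ T0 : ℝ, 10 ≤ T0 ∧ ∀ T : ℝ, T0 ≤ T → ∀ A B : ℝ, T + 1 ≤ A → B ≤ 2 * T - 1 →
      T ^ h ≤ B - A → ∀ Λ : ℝ, lam * Real.log T ≤ Λ → Λ ≤ (h - ε) * Real.log T →
      ‖QTv R F Λ A B μ v - (if μ = 0 then (QQG g F Λ A B : ℂ) else 0)‖ ≤
        η * ((B - A) * Real.log T) := by
  have hR0 : 0 ≤ R 0 := hR.nonneg 0
  by_cases hμ : μ = 0
  · obtain ⟨K, hK0, hd⟩ := QTv_diff hR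
    obtain ⟨C, T1, hC, hT1, hJ⟩ := J_intU hF ha hld h (ε / 2) lam (by positivity) (by linarith)
      hh1 hlam
    have ev : ∀ᶠ T : ℝ in atTop, 1 ≤ Real.log T ∧ |v| / lam ≤ Real.log T ∧
        |v| / (ε / 2) ≤ Real.log T ∧ (4 * K * C * |v| / η) / lam ≤ Real.log T :=
      (Real.tendsto_log_atTop.eventually_ge_atTop _).and
        ((Real.tendsto_log_atTop.eventually_ge_atTop _).and
        ((Real.tendsto_log_atTop.eventually_ge_atTop _).and
        (Real.tendsto_log_atTop.eventually_ge_atTop _)))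
    obtain ⟨T2, hT2⟩ := ev.exists_forall_of_atTop
    refine ⟨max T1 T2, hT1.trans (le_max_left _ _), fun T hT A B hA hB hAB Λ hΛ1 hΛ2 => ?_⟩
    have hTT1 := (le_max_left _ _).trans hT
    obtain ⟨e0, e1, e2, e3⟩ := hT2 T ((le_max_right _ _).trans hT)
    have hT10 : 10 ≤ T := hT1.trans hTT1
    have hTpos : 0 < T := by linarith
    set L := Real.log T with hL
    have hU : 1 ≤ A := by linarith
    have hH0 : 0 < B - A := (Real.rpow_pos_of_pos hTpos h).trans_le hAB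
    have hv := abs_nonneg v
    have hΛ0 : 0 < Λ := lt_of_lt_of_le (by positivity) hΛ1
    rw [div_le_iff₀ hlam] at e1 e3
    rw [div_le_iff₀ (by positivity)] at e2
    have hvΛ : |v| ≤ Λ := by linarith
    have h4 := hJ T hTT1 A B hA hB hAB (Λ + |v|) (by linarith) (by
      show Λ + |v| ≤ (h - ε / 2) * L
      linarith) 0
    have h5 := hd F hF A B hU Λ hΛ0 v
    rw [if_pos hμ, hμ, ← QTv_zero hF hU hR hK]
    refine h5.trans ?_
    have h6 : |v| / Λ ≤ 1 := by rw [div_le_one hΛ0]; exact hvΛ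
    have h7 : 4 * K * C * (|v| / Λ) ≤ η := by
      rw [← mul_div_assoc, div_le_iff₀ hΛ0]
      have h8 : 4 * K * C * |v| / η ≤ Λ := by linarith
      rw [div_le_iff₀ hη] at h8
      linarith
    have h9 : 0 ≤ (B - A) * L := by positivity
    have hI : 0 ≤ ∫ β in (0 : ℝ)..1, ‖JT F A B ((Λ + |v|) * β) 0‖ :=
      intervalIntegral.integral_nonneg zero_le_one fun _ _ => norm_nonneg _
    calc K * (|v| / Λ) * (1 + |v| / Λ) * (2 * ∫ β in (0 : ℝ)..1, ‖JT F A B ((Λ + |v|) * β) 0‖) ≤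
        K * (|v| / Λ) * (1 + 1) * (2 * (C * ((B - A) * L))) := by gcongr
      _ = (4 * K * C * (|v| / Λ)) * ((B - A) * L) := by ring
      _ ≤ η * ((B - A) * L) := by gcongr
  · set η1 : ℝ := η / (4 * Real.exp (μ ^ 2 / 4) * (R 0 + 1)) with hη1
    have hη10 : 0 < η1 := by positivity
    obtain ⟨T1, hT1, hJ⟩ := JT_intU hF ha hld hμ h (ε / 2) lam η1 (by positivity) (by linarith)
      hh1 hlam hη10
    have ev : ∀ᶠ T : ℝ in atTop, 1 ≤ Real.log T ∧ |v| / lam ≤ Real.log T ∧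
        |v| / (ε / 2) ≤ Real.log T :=
      (Real.tendsto_log_atTop.eventually_ge_atTop _).and
        ((Real.tendsto_log_atTop.eventually_ge_atTop _).and
        (Real.tendsto_log_atTop.eventually_ge_atTop _))
    obtain ⟨T2, hT2⟩ := ev.exists_forall_of_atTop
    refine ⟨max T1 T2, hT1.trans (le_max_left _ _), fun T hT A B hA hB hAB Λ hΛ1 hΛ2 => ?_⟩
    have hTT1 := (le_max_left _ _).trans hT
    obtain ⟨e0, e1, e2⟩ := hT2 T ((le_max_right _ _).trans hT)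
    have hT10 : 10 ≤ T := hT1.trans hTT1
    have hTpos : 0 < T := by linarith
    set L := Real.log T with hL
    have hU : 1 ≤ A := by linarith
    have hH0 : 0 < B - A := (Real.rpow_pos_of_pos hTpos h).trans_le hAB
    have hv := abs_nonneg v
    have hΛ0 : 0 < Λ := lt_of_lt_of_le (by positivity) hΛ1
    rw [div_le_iff₀ hlam] at e1
    rw [div_le_iff₀ (by positivity)] at e2
    have hvΛ : |v| ≤ Λ := by linarith
    have h4 := hJ T hTT1 A B hA hB hAB (Λ + |v|) (by linarith) (by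
      show Λ + |v| ≤ (h - ε / 2) * L
      linarith)
    rw [if_neg hμ, sub_zero]
    refine (QTv_bound hF hU hR hΛ0 μ v).trans ?_
    have h6 : (Λ + |v|) / Λ ≤ 2 := by rw [div_le_iff₀ hΛ0]; linarith
    have h9 : 0 ≤ (B - A) * L := by positivity
    calc Real.exp (μ ^ 2 / 4) * (R 0 * (2 * ((Λ + |v|) / Λ) *
        ∫ β in (0 : ℝ)..1, ‖JT F A B ((Λ + |v|) * β) μ‖)) ≤
        Real.exp (μ ^ 2 / 4) * ((R 0 + 1) * (2 * 2 * (η1 * ((B - A) * L)))) := by
          have hI : 0 ≤ ∫ β in (0 : ℝ)..1, ‖JT F A B ((Λ + |v|) * β) μ‖ :=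
            intervalIntegral.integral_nonneg zero_le_one fun _ _ => norm_nonneg _
          have hx0 : 0 ≤ 2 * ((Λ + |v|) / Λ) * ∫ β in (0 : ℝ)..1, ‖JT F A B ((Λ + |v|) * β) μ‖ := by
            positivity
          have hx : 2 * ((Λ + |v|) / Λ) * ∫ β in (0 : ℝ)..1, ‖JT F A B ((Λ + |v|) * β) μ‖ ≤
              2 * 2 * (η1 * ((B - A) * L)) := by gcongr
          exact mul_le_mul_of_nonneg_left
            (mul_le_mul (by linarith : R 0 ≤ R 0 + 1) hx hx0 (by linarith)) (Real.exp_pos _).le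
      _ = η * ((B - A) * L) := by
          rw [hη1]
          field_simp
          ring

open Classical in
/-- the mean value of the square of a trigonometric polynomial -/
noncomputable def msq {ι : Type} (J : Finset ι) (b : ι → ℂ) (l : ι → ℝ) : ℂ :=
  ∑ i ∈ J, ∑ j ∈ J, b i * b j * (if l i + l j = 0 then 1 else 0)

open Classical in
/-- **pair sums of trigonometric polynomials** -/
theorem pairG {F : ℂ → ℂ} (hF : GoodL F) {g R : ℝ → ℝ} (hR : Conv R) (hK : KSq g R)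
    {a : ℕ → ℂ} (ha : ∀ n, ‖a n‖ ≤ ArithmeticFunction.vonMangoldt n)
    (hld : ∀ s : ℂ, 1 < s.re → 1 ≤ s.im → deriv F s / F s = - ∑' n : ℕ, a n * (n : ℂ) ^ (-s))
    {ι : Type} (J : Finset ι) (b : ι → ℂ) (l : ι → ℝ)
    (h ε lam η : ℝ) (hε : 0 < ε) (hεh : ε < h) (hh1 : h ≤ 1) (hlam : 0 < lam)
    (hη : 0 < η) :
    ∃ T0 : ℝ, 10 ≤ T0 ∧ ∀ T : ℝ, T0 ≤ T → ∀ A B : ℝ, T + 1 ≤ A → B ≤ 2 * T - 1 →
      T ^ h ≤ B - A → ∀ Λ : ℝ, lam * Real.log T ≤ Λ → Λ ≤ (h - ε) * Real.log T →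
      ‖∑ s ∈ Zf F A B, ∑ s' ∈ Zf F A B, (mult F s : ℂ) * (mult F s' : ℂ) *
          (gp J b l (zz s) * gp J b l (zz s') * (phiG g Λ (zz s - zz s')) ^ 2) -
        msq J b l * (QQG g F Λ A B : ℂ)‖ ≤ η * ((B - A) * Real.log T) := by
  set Ct : ℝ := ∑ i ∈ J, ∑ j ∈ J, ‖b i‖ * ‖b j‖ with hCt
  have hCt0 : 0 ≤ Ct := Finset.sum_nonneg fun i _ => Finset.sum_nonneg fun j _ => by positivity
  have hex : ∀ i j : ι, ∃ T0 : ℝ, 10 ≤ T0 ∧ ∀ T : ℝ, T0 ≤ T → ∀ A B : ℝ, T + 1 ≤ A →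
      B ≤ 2 * T - 1 → T ^ h ≤ B - A → ∀ Λ : ℝ, lam * Real.log T ≤ Λ → Λ ≤ (h - ε) * Real.log T →
      ‖QTv R F Λ A B (l i + l j) ((l i - l j) / 2) -
        (if l i + l j = 0 then (QQG g F Λ A B : ℂ) else 0)‖ ≤
        η / (Ct + 1) * ((B - A) * Real.log T) := fun i j =>
    QTv_asym hF hR hK ha hld _ _ h ε lam _ hε hεh hh1 hlam (by positivity)
  choose Ta hTa10 hTa using hex
  set Tm : ℝ := ∑ i ∈ J, ∑ j ∈ J, |Ta i j| with hTm
  have hTm' : ∀ i ∈ J, ∀ j ∈ J, Ta i j ≤ Tm := by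
    intro i hi j hj
    have h1 : |Ta i j| ≤ ∑ j ∈ J, |Ta i j| := Finset.single_le_sum
      (f := fun j => |Ta i j|) (fun j _ => abs_nonneg _) hj
    have h2 : ∑ j ∈ J, |Ta i j| ≤ Tm := Finset.single_le_sum
      (f := fun i => ∑ j ∈ J, |Ta i j|) (fun i _ => Finset.sum_nonneg fun j _ => abs_nonneg _) hi
    exact (le_abs_self _).trans (h1.trans h2)
  refine ⟨max 10 Tm, le_max_left _ _, fun T hT A B hA hB hAB Λ hΛ1 hΛ2 => ?_⟩
  have hT10 : 10 ≤ T := (le_max_left _ _).trans hT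
  have hTpos : 0 < T := by linarith
  have hH0 : 0 < B - A := (Real.rpow_pos_of_pos hTpos h).trans_le hAB
  have hL0 : 0 ≤ Real.log T := Real.log_nonneg (by linarith)
  rw [pair_expand hK]
  have e1 : msq J b l * (QQG g F Λ A B : ℂ) = ∑ i ∈ J, ∑ j ∈ J, b i * b j *
      (if l i + l j = 0 then (QQG g F Λ A B : ℂ) else 0) := by
    unfold msq
    rw [Finset.sum_mul]
    refine Finset.sum_congr rfl fun i _ => ?_
    rw [Finset.sum_mul]
    refine Finset.sum_congr rfl fun j _ => ?_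
    split_ifs <;> ring
  rw [e1, ← Finset.sum_sub_distrib]
  have e2 : ∀ i ∈ J, ‖∑ j ∈ J, b i * b j * QTv R F Λ A B (l i + l j) ((l i - l j) / 2) -
      ∑ j ∈ J, b i * b j * (if l i + l j = 0 then (QQG g F Λ A B : ℂ) else 0)‖ ≤
      ∑ j ∈ J, ‖b i‖ * ‖b j‖ * (η / (Ct + 1) * ((B - A) * Real.log T)) := by
    intro i hi
    rw [← Finset.sum_sub_distrib]
    refine (norm_sum_le _ _).trans (Finset.sum_le_sum fun j hj => ?_)
    rw [← mul_sub, norm_mul, norm_mul]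
    apply mul_le_mul_of_nonneg_left _ (by positivity)
    exact hTa i j T ((hTm' i hi j hj).trans ((le_max_right _ _).trans hT)) A B hA hB hAB Λ hΛ1 hΛ2
  refine (norm_sum_le _ _).trans ((Finset.sum_le_sum e2).trans ?_)
  have e3 : ∑ i ∈ J, ∑ j ∈ J, ‖b i‖ * ‖b j‖ * (η / (Ct + 1) * ((B - A) * Real.log T)) =
      Ct * (η / (Ct + 1) * ((B - A) * Real.log T)) := by
    rw [hCt, Finset.sum_mul]
    refine Finset.sum_congr rfl fun i _ => ?_
    rw [Finset.sum_mul]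
  rw [e3]
  have e4 : Ct * (η / (Ct + 1) * ((B - A) * Real.log T)) =
      (Ct / (Ct + 1)) * (η * ((B - A) * Real.log T)) := by ring
  rw [e4]
  have e5 : Ct / (Ct + 1) ≤ 1 := by rw [div_le_one (by positivity)]; linarith
  have e6 : 0 ≤ η * ((B - A) * Real.log T) := by positivity
  calc (Ct / (Ct + 1)) * (η * ((B - A) * Real.log T)) ≤ 1 * (η * ((B - A) * Real.log T)) := by
        gcongr
    _ = _ := one_mul _

end TH803UC
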